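import Pool.Agent.H703.FF.Two
import Pool.Graph.R_seed8.H522R2.Circuit

/-!
# Arithmetic circuits over finite fields
-/

namespace Pool.Agent.H703.FF

open Finset Module Matrix
open Pool.Agent.H522R2
open scoped Classical

variable {K : Type} [Field K] {m : ℕ}

/-- The values of the variables of a circuit at a pair of matrices. -/
def point (x : Pairs K m) : (Fin m × Fin m) ⊕ (Fin m × Fin m) → K :=
  Sum.elim (fun p => x.1 p.1 p.2) (fun p => x.2 p.1 p.2)

/-- The function of two matrices which is given by the polynomials at the nodes `v i j`. -/
noncomputable def outputs (C : Circuit K ((Fin m × Fin m) ⊕ (Fin m × Fin m)))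
    (v : Fin m → Fin m → Fin C.nodes) (x : Pairs K m) : Matrix (Fin m) (Fin m) K :=
  fun i j => MvPolynomial.eval (point x) (C.poly (v i j))

/-- the functions which are computed by the first nodes -/
lemma exists_steps (C : Circuit K ((Fin m × Fin m) ⊕ (Fin m × Fin m))) :
    ∀ n ≤ C.nodes, ∃ M : Submodule K (Pairs K m → K),
      Steps 1 (affine K m) (univ.filter fun k : Fin C.nodes => (k : ℕ) < n ∧ C.IsNonscalar k).card M ∧
      affine K m ≤ M ∧
      ∀ k : Fin C.nodes, (k : ℕ) < n → (fun x => MvPolynomial.eval (point x) (C.poly k)) ∈ M
  | 0, _ => ⟨affine K m, by simpa using Steps.start, le_rfl, fun k hk => absurd hk (by omega)⟩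
  | n + 1, hn => by
    obtain ⟨M, h1, h2, h3⟩ := exists_steps C n (by omega)
    set k : Fin C.nodes := ⟨n, by omega⟩ with hk
    have hlt : ∀ i : Fin (k : ℕ), (fun x => MvPolynomial.eval (point x) (C.poly (C.up k i))) ∈ M :=
      fun i => h3 _ i.2
    have hset : (univ.filter fun j : Fin C.nodes => (j : ℕ) < n + 1 ∧ C.IsNonscalar j) =
        (univ.filter fun j : Fin C.nodes => (j : ℕ) < n ∧ C.IsNonscalar j) ∪
          (univ.filter fun j : Fin C.nodes => j = k ∧ C.IsNonscalar j) := by
      ext j
      simp only [mem_filter, mem_univ, true_and, mem_union]
      constructor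
      · rintro ⟨a, b⟩
        rcases Nat.lt_or_ge j n with h | h
        · exact Or.inl ⟨h, b⟩
        · exact Or.inr ⟨Fin.ext (by simp [hk]; omega), b⟩
      · rintro (⟨a, b⟩ | ⟨a, b⟩)
        · exact ⟨by omega, b⟩
        · exact ⟨by rw [a]; simp [hk], b⟩
    -- the case of no new step
    have old : ¬ C.IsNonscalar k → (fun x => MvPolynomial.eval (point x) (C.poly k)) ∈ M →
        ∃ M : Submodule K (Pairs K m → K),
        Steps 1 (affine K m)
          (univ.filter fun k : Fin C.nodes => (k : ℕ) < n + 1 ∧ C.IsNonscalar k).card M ∧
        affine K m ≤ M ∧
        ∀ k : Fin C.nodes, (k : ℕ) < n + 1 →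
          (fun x => MvPolynomial.eval (point x) (C.poly k)) ∈ M := by
      intro hno hmem
      have he : (univ.filter fun j : Fin C.nodes => j = k ∧ C.IsNonscalar j) = ∅ := by
        ext j
        simp only [mem_filter, mem_univ, true_and]
        constructor
        · rintro ⟨rfl, h⟩
          exact absurd h hno
        · intro h
          exact absurd h (Finset.notMem_empty _)
      rw [hset, he, Finset.union_empty]
      refine ⟨M, h1, h2, fun j hj => ?_⟩
      rcases Nat.lt_or_ge j n with h | h
      · exact h3 j h
      · have : j = k := Fin.ext (by simp [hk]; omega)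
        rw [this]
        exact hmem
    by_cases hns : C.IsNonscalar k
    · have he : (univ.filter fun j : Fin C.nodes => j = k ∧ C.IsNonscalar j) = {k} := by
        ext j
        simp only [mem_filter, mem_univ, true_and, mem_singleton]
        constructor
        · exact fun h => h.1
        · rintro rfl
          exact ⟨rfl, hns⟩
      have hdis : Disjoint (univ.filter fun j : Fin C.nodes => (j : ℕ) < n ∧ C.IsNonscalar j)
          {k} := by
        rw [Finset.disjoint_singleton_right]
        simp [hk]
      rw [hset, he, Finset.card_union_of_disjoint hdis, Finset.card_singleton]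
      obtain ⟨i, j, hg, -, -⟩ := hns
      refine ⟨_, Steps.step (fun x => MvPolynomial.eval (point x) (C.poly (C.up k i)))
        (fun _ x => MvPolynomial.eval (point x) (C.poly (C.up k j))) (fun y => y 0) (fun _ => 0)
        h1 (hlt i) (fun _ => hlt j), h2.trans le_sup_left, fun l hl => ?_⟩
      rcases Nat.lt_or_ge l n with h | h
      · exact Submodule.mem_sup_left (h3 l h)
      · have : l = k := Fin.ext (by simp [hk]; omega)
        rw [this]
        refine Submodule.mem_sup_right ?_
        have e : (fun x : Pairs K m => MvPolynomial.eval (point x) (C.poly k)) =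
            fun x => MvPolynomial.eval (point x) (C.poly (C.up k i)) *
              MvPolynomial.eval (point x) (C.poly (C.up k j)) + 0 := by
          ext x
          rw [Circuit.poly, hg]
          simp
        rw [e]
        exact Submodule.mem_span_singleton_self _
    · refine old hns ?_
      cases hg : C.gate k with
      | var y =>
        have e : (fun x : Pairs K m => MvPolynomial.eval (point x) (C.poly k)) =
            fun x => point x y := by
          ext x
          rw [Circuit.poly, hg]
          simp
        rw [e]
        refine h2 (Submodule.subset_span ?_)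
        rcases y with p | p
        · exact Or.inr (Or.inl ⟨p, rfl⟩)
        · exact Or.inr (Or.inr ⟨p, rfl⟩)
      | const c =>
        have e : (fun x : Pairs K m => MvPolynomial.eval (point x) (C.poly k)) =
            c • (fun _ => 1 : Pairs K m → K) := by
          ext x
          rw [Circuit.poly, hg]
          simp
        rw [e]
        exact h2 (Submodule.smul_mem _ _ (Submodule.subset_span (Or.inl rfl)))
      | add i j =>
        have e : (fun x : Pairs K m => MvPolynomial.eval (point x) (C.poly k)) =
            (fun x => MvPolynomial.eval (point x) (C.poly (C.up k i))) +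
              fun x => MvPolynomial.eval (point x) (C.poly (C.up k j)) := by
          ext x
          rw [Circuit.poly, hg]
          simp
        rw [e]
        exact M.add_mem (hlt i) (hlt j)
      | mul i j =>
        have hor : (∃ c : K, C.poly (C.up k i) = MvPolynomial.C c) ∨
            ∃ c : K, C.poly (C.up k j) = MvPolynomial.C c := by
          by_contra hc
          push Not at hc
          exact hns ⟨i, j, hg, hc.1, hc.2⟩
        rcases hor with ⟨c, hc⟩ | ⟨c, hc⟩
        · have e : (fun x : Pairs K m => MvPolynomial.eval (point x) (C.poly k)) =
              c • fun x => MvPolynomial.eval (point x) (C.poly (C.up k j)) := by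
            ext x
            rw [Circuit.poly, hg]
            simp [hc]
          rw [e]
          exact M.smul_mem _ (hlt j)
        · have e : (fun x : Pairs K m => MvPolynomial.eval (point x) (C.poly k)) =
              c • fun x => MvPolynomial.eval (point x) (C.poly (C.up k i)) := by
            ext x
            rw [Circuit.poly, hg]
            simp [hc, mul_comm]
          rw [e]
          exact M.smul_mem _ (hlt i)

theorem computes_circuit (C : Circuit K ((Fin m × Fin m) ⊕ (Fin m × Fin m)))
    (v : Fin m → Fin m → Fin C.nodes) : Computes 1 C.nonscalarCount (outputs C v) := by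
  obtain ⟨M, h1, -, h3⟩ := exists_steps C C.nodes le_rfl
  refine ⟨_, ?_, M, h1, fun i j => h3 (v i j) (v i j).2⟩
  rw [Circuit.nonscalarCount, Nat.card_eq_fintype_card, Fintype.card_subtype]
  refine Finset.card_le_card fun k hk => ?_
  simp only [mem_filter, mem_univ, true_and] at hk ⊢
  exact hk.2

end Pool.Agent.H703.FF
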