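import Pool.Agent.H703.FF.View

/-!
# Counting the fibres on which a program can be right
-/

namespace Pool.Agent.H703.FF

open Finset Module
open scoped Classical

variable {K V : Type} [Field K] [AddCommGroup V] [Module K V] [Fintype V]

/-- If all points of `S`, up to the proportion `ρ`, are good and two good points of `S` with the
difference `n τ` give the equation `L τ x = a τ`, then the homogeneous equations have many solutions. -/
theorem view_count {D N : Submodule K V} {S : Finset V} {s : ℕ}
    (hcl : ∀ x ∈ S, ∀ n ∈ N, n ∈ D → x + n ∈ S)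
    (hfib : Fib D S s) (hs : 0 < s)
    {T : Type} (Θ : Set T) (n : T → V) (hnN : ∀ τ ∈ Θ, n τ ∈ N) (hnD : ∀ τ ∈ Θ, n τ ∈ D)
    (L : T → V →ₗ[K] K) (a : T → K) (bad : V → Prop)
    (hL : ∀ τ ∈ Θ, ∀ x ∈ S, ¬ bad x → ¬ bad (x + n τ) → L τ x = a τ)
    (hD : ∀ τ ∈ Θ, ∀ d ∈ D, L τ d = 0) {ρ : ℝ}
    (hρ : ((S.filter bad).card : ℝ) / (S.card : ℝ) ≤ ρ) :
    ∃ G : Finset V, (∀ x ∈ G, ∀ τ ∈ Θ, L τ x = 0) ∧
      (1 - 2 * ρ) * (Fintype.card V : ℝ) ≤ (G.card : ℝ) := by
  classical
  set G : Finset V := univ.filter fun x : V => ∀ τ ∈ Θ, L τ x = a τ with hG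
  set G0 : Finset V := univ.filter fun x : V => ∀ τ ∈ Θ, L τ x = 0 with hG0
  refine ⟨G0, fun x hx => (Finset.mem_filter.1 hx).2, ?_⟩
  have hV : 0 < Fintype.card V := Fintype.card_pos
  have hDp : 0 < Fintype.card D := Fintype.card_pos
  have hcard : Fintype.card D * S.card = s * Fintype.card V := fib_card hfib
  -- good points of the fibres
  have h1 : ∀ x : V, 2 * (univ.filter fun d : D => x + (d : V) ∈ S ∧ ¬ bad (x + (d : V))).card ≤
      s + (if x ∈ G then s else 0) := by
    intro x
    by_cases hx : x ∈ G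
    · rw [if_pos hx]
      have : (univ.filter fun d : D => x + (d : V) ∈ S ∧ ¬ bad (x + (d : V))).card ≤ s := by
        rw [← hfib x]
        refine Finset.card_le_card fun d hd => ?_
        simp only [mem_filter, mem_univ, true_and] at hd ⊢
        exact hd.1
      omega
    · rw [if_neg hx, add_zero]
      simp only [hG, mem_filter, mem_univ, true_and] at hx
      push Not at hx
      obtain ⟨τ, hτ, hne⟩ := hx
      set A : Finset D := univ.filter fun d : D => x + (d : V) ∈ S ∧ ¬ bad (x + (d : V)) with hA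
      have h2 : (A.image (fun d => d + ⟨n τ, hnD τ hτ⟩)).card = A.card :=
        Finset.card_image_of_injective _ (add_left_injective _)
      have h3 : Disjoint A (A.image (fun d => d + ⟨n τ, hnD τ hτ⟩)) := by
        rw [Finset.disjoint_left]
        intro d hd hd'
        obtain ⟨e, he, rfl⟩ := Finset.mem_image.1 hd'
        simp only [hA, mem_filter, mem_univ, true_and] at he hd
        have h4 : x + ((e + ⟨n τ, hnD τ hτ⟩ : D) : V) = (x + (e : V)) + n τ := by
          simp [add_assoc]
        rw [h4] at hd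
        have h5 := hL τ hτ _ he.1 he.2 hd.2
        rw [map_add, hD τ hτ _ e.2, add_zero] at h5
        exact hne h5
      have h4 : (A ∪ A.image (fun d => d + ⟨n τ, hnD τ hτ⟩)).card ≤ s := by
        rw [← hfib x]
        refine Finset.card_le_card fun d hd => ?_
        simp only [mem_filter, mem_univ, true_and]
        rcases Finset.mem_union.1 hd with hd | hd
        · simp only [hA, mem_filter, mem_univ, true_and] at hd
          exact hd.1
        · obtain ⟨e, he, rfl⟩ := Finset.mem_image.1 hd
          simp only [hA, mem_filter, mem_univ, true_and] at he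
          have h4 : x + ((e + ⟨n τ, hnD τ hτ⟩ : D) : V) = (x + (e : V)) + n τ := by
            simp [add_assoc]
          rw [h4]
          exact hcl _ he.1 _ (hnN τ hτ) (hnD τ hτ)
      rw [Finset.card_union_of_disjoint h3, h2] at h4
      omega
  have h2 : 2 * (Fintype.card D * (S.filter fun x => ¬ bad x).card) ≤
      s * Fintype.card V + s * G.card := by
    have h3 := double D (fun x => x ∈ S ∧ ¬ bad x)
    have h4 : (univ.filter fun x : V => x ∈ S ∧ ¬ bad x).card = (S.filter fun x => ¬ bad x).card := by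
      congr 1
      ext x
      simp
    have h5 : ∑ x : V, (univ.filter fun d : D => x + (d : V) ∈ S ∧ ¬ bad (x + (d : V))).card =
        Fintype.card D * (S.filter fun x => ¬ bad x).card := by
      rw [← h4]
      convert h3
    rw [← h5, Finset.mul_sum]
    refine (Finset.sum_le_sum fun x _ => h1 x).trans ?_
    rw [Finset.sum_add_distrib]
    simp [Finset.sum_ite_mem, mul_comm]
  have h3 : G.card ≤ G0.card := by
    rcases G.eq_empty_or_nonempty with h | ⟨x0, hx0⟩
    · rw [h]; simp
    · refine Finset.card_le_card_of_injOn (fun x => x - x0) ?_ ?_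
      · intro x hx
        simp only [hG, hG0, coe_filter, mem_univ, true_and, Set.mem_ofPred_eq, mem_filter] at hx hx0 ⊢
        intro τ hτ
        rw [map_sub, hx τ hτ, hx0 τ hτ, sub_self]
      · intro x _ y _ hxy
        exact sub_left_injective hxy
  have hSpos : (0 : ℝ) < (S.card : ℝ) := by
    have h4 : 0 < Fintype.card D * S.card := by
      rw [hcard]; exact Nat.mul_pos hs hV
    have h5 : 0 < S.card := by
      rcases Nat.eq_zero_or_pos S.card with h6 | h6
      · rw [h6] at h4; simp at h4
      · exact h6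
    exact_mod_cast h5
  have h4 : ((S.filter bad).card : ℝ) ≤ ρ * (S.card : ℝ) := by
    rwa [div_le_iff₀ hSpos] at hρ
  have h5 : ((S.filter bad).card : ℝ) + ((S.filter fun x => ¬ bad x).card : ℝ) = (S.card : ℝ) := by
    exact_mod_cast Finset.card_filter_add_card_filter_not (s := S) (p := bad)
  have h6 : (2 : ℝ) * ((Fintype.card D : ℝ) * ((S.filter fun x => ¬ bad x).card : ℝ)) ≤
      (s : ℝ) * (Fintype.card V : ℝ) + (s : ℝ) * (G.card : ℝ) := by exact_mod_cast h2
  have h7 : (Fintype.card D : ℝ) * (S.card : ℝ) = (s : ℝ) * (Fintype.card V : ℝ) := by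
    exact_mod_cast hcard
  have h8 : (G.card : ℝ) ≤ (G0.card : ℝ) := by exact_mod_cast h3
  have hsr : (0 : ℝ) < (s : ℝ) := by exact_mod_cast hs
  have hDr : (0 : ℝ) < (Fintype.card D : ℝ) := by exact_mod_cast hDp
  refine le_trans ?_ h8
  have h9 : (1 - ρ) * (S.card : ℝ) ≤ ((S.filter fun x => ¬ bad x).card : ℝ) := by linarith
  have h10 : 2 * ((1 - ρ) * ((s : ℝ) * (Fintype.card V : ℝ))) ≤
      (s : ℝ) * (Fintype.card V : ℝ) + (s : ℝ) * (G.card : ℝ) := by
    have h11 := mul_le_mul_of_nonneg_left h9 hDr.le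
    rw [← h7]
    rw [← h7] at h6
    nlinarith [h6, h11]
  have h12 : (s : ℝ) * ((1 - 2 * ρ) * (Fintype.card V : ℝ)) ≤ (s : ℝ) * (G.card : ℝ) := by
    nlinarith [h10]
  exact le_of_mul_le_mul_left h12 hsr

end Pool.Agent.H703.FF
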