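import Mathlib

/-!
# Programs over finite fields which compute the product of two matrices as a function: definitions
-/

namespace Pool.Agent.H703.FF

open Finset

/-- `Steps k L t M`: the linear space `M` of functions on `X` is obtained from the linear space `L` by
`t` steps. A step takes `k + 1` available functions `a`, `b 1, …, b k` and adds the function
`a φ(b 1, …, b k) + ψ(b 1, …, b k)` with arbitrary functions `φ ψ : K ^ k → K`; linear combinations
are free. For example, if `k = 1` then the product `a b`, the quotient `a / b` (with any convention
for the division by `0`), an arbitrary function of `b` and, as linear combinations are free, the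
conditional assignment `if b = 0 then a else c` are obtained by one step. For larger `k` a step can
also be an arbitrary function of `k` elements. -/
inductive Steps {X K : Type} [Field K] (k : ℕ) (L : Submodule K (X → K)) :
    ℕ → Submodule K (X → K) → Prop
  | start : Steps k L 0 L
  | step {t : ℕ} {M : Submodule K (X → K)} (a : X → K) (b : Fin k → X → K)
      (φ ψ : (Fin k → K) → K) :
      Steps k L t M → a ∈ M → (∀ i, b i ∈ M) →
      Steps k L (t + 1) (M ⊔ Submodule.span K
        {fun x => a x * φ (fun i => b i x) + ψ (fun i => b i x)})

/-- The pairs of `m × m` matrices over `K`. -/
abbrev Pairs (K : Type) (m : ℕ) : Type := Matrix (Fin m) (Fin m) K × Matrix (Fin m) (Fin m) K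

/-- The affine functions of the entries of the two matrices: the linear combinations of `1` and of
the entries. -/
def affine (K : Type) [Field K] (m : ℕ) : Submodule K (Pairs K m → K) :=
  Submodule.span K ({fun _ => 1} ∪
    ((Set.range fun (p : Fin m × Fin m) (x : Pairs K m) => x.1 p.1 p.2) ∪
      (Set.range fun (p : Fin m × Fin m) (x : Pairs K m) => x.2 p.1 p.2)))

/-- The function `F` of two `m × m` matrices with matrix values is computed by a program with at most
`t` steps; additions and multiplications by constants are free. -/
def Computes {K : Type} [Field K] {m : ℕ} (k t : ℕ) (F : Pairs K m → Matrix (Fin m) (Fin m) K) :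
    Prop :=
  ∃ s ≤ t, ∃ M : Submodule K (Pairs K m → K), Steps k (affine K m) s M ∧
    ∀ i j, (fun x => F x i j) ∈ M

/-- The probability that the random program `F ω` (`ω` has the probability `w ω`) computes the product
of two random matrices (all pairs of matrices have the same probability). -/
noncomputable def success {K : Type} [Field K] [Fintype K] {m : ℕ} {Ω : Type} [Fintype Ω]
    (w : Ω → ℝ) (F : Ω → Pairs K m → Matrix (Fin m) (Fin m) K) : ℝ :=
  ∑ ω, w ω * (Nat.card {x : Pairs K m // F ω x = x.1 * x.2} / Nat.card (Pairs K m))

end Pool.Agent.H703.FF
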