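import Pool.Agent.H703.FF.Defs

/-!
# Linear algebra of spaces of matrices
-/

namespace Pool.Agent.H703.FF

open Finset Module Matrix

variable {K : Type} [Field K] {m : ℕ}

/-- The orthogonal complement with respect to the dot product. -/
noncomputable def perp (R : Submodule K (Fin m → K)) : Submodule K (Fin m → K) :=
  (R.map (dotProductEquiv K (Fin m)).toLinearMap).dualCoannihilator

lemma mem_perp {R : Submodule K (Fin m → K)} {z : Fin m → K} :
    z ∈ perp R ↔ ∀ y ∈ R, y ⬝ᵥ z = 0 := by
  rw [perp, Submodule.mem_dualCoannihilator]
  constructor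
  · intro h y hy
    exact h _ (Submodule.mem_map_of_mem hy)
  · rintro h _ ⟨y, hy, rfl⟩
    exact h y hy

lemma finrank_perp (R : Submodule K (Fin m → K)) :
    finrank K R + finrank K (perp R) = m := by
  have h := Subspace.finrank_add_finrank_dualCoannihilator_eq
    (R.map (dotProductEquiv K (Fin m)).toLinearMap)
  have h2 : finrank K (R.map (dotProductEquiv K (Fin m)).toLinearMap) = finrank K R :=
    LinearEquiv.finrank_map_eq (dotProductEquiv K (Fin m)) R
  rw [h2] at h
  rw [perp, h]
  simp

/-- A space of matrices all of whose columns are in `W` -/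
lemma finrank_le_of_columns {P : Type} [AddCommGroup P] [Module K P] [Module.Finite K P]
    (W : Submodule K (Fin m → K)) (φ : P →ₗ[K] Matrix (Fin m) (Fin m) K)
    (hφ : Function.Injective φ) (h : ∀ p j, (fun i => φ p i j) ∈ W) :
    finrank K P ≤ m * finrank K W := by
  let ψ : P →ₗ[K] (Fin m → W) :=
    { toFun := fun p j => ⟨fun i => φ p i j, h p j⟩
      map_add' := fun p q => by ext j i; simp
      map_smul' := fun c p => by ext j i; simp }
  have hψ : Function.Injective ψ := by
    intro p q hpq
    apply hφ
    ext i j
    have := congrFun hpq j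
    have := congrArg (fun w : W => (w : Fin m → K) i) this
    exact this
  have := LinearMap.finrank_le_finrank_of_injective hψ
  rwa [Module.finrank_pi_fintype, Finset.sum_const, Finset.card_univ, Fintype.card_fin,
    smul_eq_mul] at this

/-- An isotropic space of pairs of matrices which contains neither a nonzero pair `(A, 0)` nor a
nonzero pair `(0, B)` has dimension at most `(m ^ 2 + 1) / 2`. -/
theorem iso_dim [Finite K] (N : Submodule K (Pairs K m))
    (h1 : ∀ u ∈ N, ∀ v ∈ N, u.1 * v.2 + v.1 * u.2 = 0)
    (hA : ∀ u ∈ N, u.2 = 0 → u.1 = 0) (hB : ∀ u ∈ N, u.1 = 0 → u.2 = 0) :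
    2 * finrank K N ≤ m ^ 2 + 1 := by
  -- the map to a combination of rows
  let φ : (Fin m → K) → N →ₗ[K] (Fin m → K) := fun w =>
    { toFun := fun u => w ᵥ* (u : Pairs K m).1
      map_add' := fun u v => by simp [Matrix.vecMul_add]
      map_smul' := fun c u => by simp [Matrix.vecMul_smul] }
  have hφ : ∀ w (u : N), φ w u = w ᵥ* (u : Pairs K m).1 := fun _ _ => rfl
  obtain ⟨w, hw⟩ := Finite.exists_max fun w : Fin m → K => finrank K (LinearMap.range (φ w))
  set r := finrank K (LinearMap.range (φ w)) with hr
  have hrm : r ≤ m := by
    have := Submodule.finrank_le (LinearMap.range (φ w))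
    simpa using this
  -- first bound
  have b1 : finrank K N ≤ m * r := by
    let ψ : N →ₗ[K] ((i : Fin m) → LinearMap.range (φ (Pi.single i 1))) :=
      LinearMap.pi fun i => (φ (Pi.single i 1)).rangeRestrict
    have hψ : Function.Injective ψ := by
      rw [injective_iff_map_eq_zero]
      intro u hu
      have h0 : (u : Pairs K m).1 = 0 := by
        ext i j
        have h2 := congrFun hu i
        have h3 := congrArg (fun z : LinearMap.range (φ (Pi.single i 1)) => (z : Fin m → K) j) h2
        simpa [ψ, hφ] using h3
      have h2 := hB u u.2 h0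
      exact Subtype.ext (Prod.ext h0 h2)
    have h2 := LinearMap.finrank_le_finrank_of_injective hψ
    rw [Module.finrank_pi_fintype] at h2
    refine h2.trans ?_
    calc ∑ i, finrank K (LinearMap.range (φ (Pi.single i 1))) ≤ ∑ _i : Fin m, r :=
          Finset.sum_le_sum fun i _ => hw _
      _ = m * r := by simp
  -- second bound
  have b2 : finrank K N ≤ r + m * (m - r) := by
    have h2 := (φ w).finrank_range_add_finrank_ker
    have h3 : finrank K (LinearMap.ker (φ w)) ≤ m * finrank K (perp (LinearMap.range (φ w))) := by
      let θ : LinearMap.ker (φ w) →ₗ[K] Matrix (Fin m) (Fin m) K :=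
        { toFun := fun u => ((u : N) : Pairs K m).2
          map_add' := fun u v => by simp
          map_smul' := fun c u => by simp }
      refine finrank_le_of_columns (P := LinearMap.ker (φ w)) _ θ ?_ ?_
      · rw [injective_iff_map_eq_zero]
        intro u hu
        have h4 : ((u : N) : Pairs K m).2 = 0 := hu
        have h5 := hA _ (u : N).2 h4
        exact Subtype.ext (Subtype.ext (Prod.ext h5 h4))
      · intro u j
        rw [mem_perp]
        rintro y ⟨v, rfl⟩
        have h4 := h1 _ v.2 _ (u : N).2
        have h5 : w ᵥ* ((u : N) : Pairs K m).1 = 0 := by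
          have := u.2
          rwa [LinearMap.mem_ker, hφ] at this
        have h6 : (w ᵥ* (v : Pairs K m).1) ᵥ* ((u : N) : Pairs K m).2 = 0 := by
          have h7 : (v : Pairs K m).1 * ((u : N) : Pairs K m).2 =
              -(((u : N) : Pairs K m).1 * (v : Pairs K m).2) := eq_neg_of_add_eq_zero_left h4
          rw [Matrix.vecMul_vecMul, h7, Matrix.vecMul_neg, ← Matrix.vecMul_vecMul, h5,
            Matrix.zero_vecMul, neg_zero]
        have h8 := congrFun h6 j
        rw [hφ]
        exact h8
    have h4 := finrank_perp (LinearMap.range (φ w))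
    have h5 : finrank K (perp (LinearMap.range (φ w))) = m - r := by omega
    rw [h5] at h3
    omega
  clear_value r
  generalize finrank K N = d at b1 b2 ⊢
  clear hr hw φ hφ w
  rcases Nat.lt_or_ge m (2 * r) with h | h
  · obtain ⟨k, hk⟩ := Nat.exists_eq_add_of_le hrm
    have h6 : m - r = k := by omega
    rw [h6] at b2
    have h7 : 2 * r ≥ m + 1 := h
    subst hk
    nlinarith
  · nlinarith

/-- The common kernel of the matrices in `C`. -/
def comKer (C : Submodule K (Matrix (Fin m) (Fin m) K)) : Submodule K (Fin m → K) where
  carrier := {v | ∀ A ∈ C, A *ᵥ v = 0}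
  add_mem' := fun {v w} hv hw A hA => by rw [Matrix.mulVec_add, hv A hA, hw A hA, add_zero]
  zero_mem' := fun A _ => Matrix.mulVec_zero A
  smul_mem' := fun c v hv A hA => by rw [Matrix.mulVec_smul, hv A hA, smul_zero]

/-- The common left kernel of the matrices in `C`. -/
def comCoker (C : Submodule K (Matrix (Fin m) (Fin m) K)) : Submodule K (Fin m → K) where
  carrier := {v | ∀ A ∈ C, v ᵥ* A = 0}
  add_mem' := fun {v w} hv hw A hA => by rw [Matrix.add_vecMul, hv A hA, hw A hA, add_zero]
  zero_mem' := fun A _ => Matrix.zero_vecMul A
  smul_mem' := fun c v hv A hA => by rw [Matrix.smul_vecMul, hv A hA, smul_zero]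

/-- The dimension of a space of matrices with given common kernels. -/
theorem finrank_le_kernels (C : Submodule K (Matrix (Fin m) (Fin m) K)) :
    finrank K C ≤ (m - finrank K (comKer C)) * (m - finrank K (comCoker C)) := by
  have hp : ∀ (A : C) (v : Fin m → K), (A : Matrix (Fin m) (Fin m) K) *ᵥ v ∈ perp (comCoker C) := by
    intro A v
    rw [mem_perp]
    intro y hy
    rw [Matrix.dotProduct_mulVec, hy A A.2, zero_dotProduct]
  let f : C → (Fin m → K) →ₗ[K] perp (comCoker C) := fun A =>
    ((A : Matrix (Fin m) (Fin m) K).mulVecLin).codRestrict (perp (comCoker C)) (hp A)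
  have hf : ∀ A v, ((f A v : perp (comCoker C)) : Fin m → K) =
      (A : Matrix (Fin m) (Fin m) K) *ᵥ v := fun _ _ => rfl
  let Ψ : C →ₗ[K] ((Fin m → K) ⧸ comKer C) →ₗ[K] perp (comCoker C) :=
    { toFun := fun A => (comKer C).liftQ (f A) (by
        intro v hv
        rw [LinearMap.mem_ker]
        exact Subtype.ext (hv A A.2))
      map_add' := fun A B => by
        apply Submodule.linearMap_qext
        refine LinearMap.ext fun v => Subtype.ext ?_
        simp [hf, Matrix.add_mulVec]
      map_smul' := fun c A => by
        apply Submodule.linearMap_qext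
        refine LinearMap.ext fun v => Subtype.ext ?_
        simp [hf, Matrix.smul_mulVec] }
  have hΨ : Function.Injective Ψ := by
    rw [injective_iff_map_eq_zero]
    intro A hA
    apply Subtype.ext
    ext i j
    have h1 := LinearMap.congr_fun hA (Submodule.Quotient.mk (Pi.single j 1))
    have h2 := congrArg (fun z : perp (comCoker C) => (z : Fin m → K) i) h1
    simpa [Ψ, hf] using h2
  have h := LinearMap.finrank_le_finrank_of_injective hΨ
  rw [Module.finrank_linearMap] at h
  have h1 := (comKer C).finrank_quotient_add_finrank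
  have h2 := finrank_perp (comCoker C)
  rw [Module.finrank_pi, Fintype.card_fin] at h1
  have h3 : finrank K ((Fin m → K) ⧸ comKer C) = m - finrank K (comKer C) := by omega
  have h4 : finrank K (perp (comCoker C)) = m - finrank K (comCoker C) := by omega
  rwa [h3, h4] at h

/-- Let `X`, `C` be spaces of matrices. If all products of elements of `C` and `X` are orthogonal to a
hyperplane (or to everything) then `X` consists of matrices whose columns are in the common kernel of
`C`, up to a small dimension. -/
theorem finrank_le_comKer (C X G : Submodule K (Matrix (Fin m) (Fin m) K))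
    (hG : m ^ 2 ≤ finrank K G + 1)
    (h : ∀ A ∈ C, ∀ D ∈ X, ∀ B ∈ G, (A * D * B).trace = 0) :
    finrank K X ≤ (m - finrank K (comKer C)) + m * finrank K (comKer C) := by
  classical
  by_cases h0 : ∀ A ∈ C, ∀ D ∈ X, A * D = 0
  · have h1 : finrank K X ≤ m * finrank K (comKer C) := by
      refine finrank_le_of_columns (P := X) _ X.subtype X.injective_subtype ?_
      intro D j A hA
      have h2 := h0 A hA D D.2
      ext i
      have h3 := congrFun (congrFun h2 i) j
      simpa [Matrix.mul_apply, Matrix.mulVec, dotProduct] using h3
    omega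
  · push Not at h0
    obtain ⟨A0, hA0, D0, hD0, hM⟩ := h0
    set M0 := A0 * D0 with hM0
    obtain ⟨i0, j0, hij⟩ : ∃ i j, M0 i j ≠ 0 := by
      by_contra hc
      push Not at hc
      exact hM (by ext i j; simpa using hc i j)
    set E0 : Matrix (Fin m) (Fin m) K := Matrix.single j0 i0 1 with hE0
    have hE : (M0 * E0).trace ≠ 0 := by
      rw [hE0, Matrix.trace_mul_comm, Matrix.trace_single_mul]
      simpa using hij
    have hE0G : E0 ∉ G := fun hin => hE (h A0 hA0 D0 hD0 E0 hin)
    have htop : G ⊔ Submodule.span K {E0} = ⊤ := by
      have hlt : G < G ⊔ Submodule.span K {E0} := by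
        refine lt_of_le_of_ne le_sup_left fun heq => hE0G ?_
        rw [heq]
        exact Submodule.mem_sup_right (Submodule.mem_span_singleton_self E0)
      have h1 := Submodule.finrank_lt_finrank_of_lt hlt
      apply Submodule.eq_top_of_finrank_eq
      have h2 := Submodule.finrank_le (G ⊔ Submodule.span K {E0})
      have h3 : finrank K (Matrix (Fin m) (Fin m) K) = m ^ 2 := by
        rw [Module.finrank_matrix]
        simp [sq]
      rw [h3] at h2 ⊢
      omega
    -- all products are multiples of `M0`
    have hprop : ∀ A ∈ C, ∀ D ∈ X, ∃ κ : K, A * D = κ • M0 := by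
      intro A hA D hD
      refine ⟨(A * D * E0).trace / (M0 * E0).trace, ?_⟩
      set κ := (A * D * E0).trace / (M0 * E0).trace with hκ
      have hall : ∀ E : Matrix (Fin m) (Fin m) K, ((A * D - κ • M0) * E).trace = 0 := by
        intro E
        have hEt : E ∈ G ⊔ Submodule.span K {E0} := by rw [htop]; trivial
        obtain ⟨g, hg, y, hy, rfl⟩ := Submodule.mem_sup.1 hEt
        obtain ⟨μ, rfl⟩ := Submodule.mem_span_singleton.1 hy
        have e1 := h A hA D hD g hg
        have e2 := h A0 hA0 D0 hD0 g hg
        rw [← hM0] at e2
        have e3 : κ * (M0 * E0).trace = (A * D * E0).trace := by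
          rw [hκ]; field_simp
        rw [Matrix.sub_mul, Matrix.mul_add, Matrix.mul_add, Matrix.trace_sub, Matrix.trace_add,
          Matrix.trace_add, e1, Matrix.smul_mul, Matrix.smul_mul, Matrix.trace_smul, e2,
          Matrix.mul_smul, Matrix.trace_smul, Matrix.trace_smul, Matrix.mul_smul,
          Matrix.trace_smul, ← e3]
        simp only [smul_eq_mul]
        ring
      rw [← sub_eq_zero]
      ext i j
      have h1 := hall (Matrix.single j i 1)
      rw [Matrix.trace_mul_comm, Matrix.trace_single_mul] at h1
      simpa using h1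
    obtain ⟨v, hv⟩ : ∃ v : Fin m → K, M0 *ᵥ v ≠ 0 := by
      refine ⟨Pi.single j0 1, fun hz => hij ?_⟩
      have := congrFun hz i0
      simpa using this
    -- evaluation at `v` modulo the common kernel
    let φ : X →ₗ[K] ((Fin m → K) ⧸ comKer C) :=
      { toFun := fun D => Submodule.Quotient.mk ((D : Matrix (Fin m) (Fin m) K) *ᵥ v)
        map_add' := fun D D' => by
          rw [← Submodule.Quotient.mk_add, Submodule.coe_add, Matrix.add_mulVec]
        map_smul' := fun c D => by
          rw [RingHom.id_apply, ← Submodule.Quotient.mk_smul, Submodule.coe_smul,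
            Matrix.smul_mulVec] }
    have h1 := φ.finrank_range_add_finrank_ker
    have h2 : finrank K (LinearMap.range φ) ≤ m - finrank K (comKer C) := by
      have h3 := Submodule.finrank_le (LinearMap.range φ)
      have h4 := (comKer C).finrank_quotient_add_finrank
      rw [Module.finrank_pi, Fintype.card_fin] at h4
      omega
    have h3 : finrank K (LinearMap.ker φ) ≤ m * finrank K (comKer C) := by
      refine finrank_le_of_columns (P := LinearMap.ker φ) _
        (X.subtype.comp (LinearMap.ker φ).subtype)
        (X.injective_subtype.comp (LinearMap.ker φ).injective_subtype) ?_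
      intro D j A hA
      have h4 : ((D : X) : Matrix (Fin m) (Fin m) K) *ᵥ v ∈ comKer C := by
        have := D.2
        rw [LinearMap.mem_ker] at this
        exact (Submodule.Quotient.mk_eq_zero _).1 this
      obtain ⟨κ, hκ⟩ := hprop A hA D (D : X).2
      have h5 : κ • (M0 *ᵥ v) = 0 := by
        rw [← Matrix.smul_mulVec, ← hκ, ← Matrix.mulVec_mulVec]
        exact h4 A hA
      have h6 : κ = 0 := by
        rcases smul_eq_zero.1 h5 with h | h
        · exact h
        · exact absurd h hv
      rw [h6, zero_smul] at hκ
      ext i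
      have h7 := congrFun (congrFun hκ i) j
      simpa [Matrix.mul_apply, Matrix.mulVec, dotProduct] using h7
    omega

end Pool.Agent.H703.FF
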