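import Pool.Agent.H703.FF.View

/-!
# One view of a program with steps of higher arity
-/

namespace Pool.Agent.H703.FF

open Finset Module
open scoped Classical

variable {K V : Type} [Field K] [Fintype K] [AddCommGroup V] [Module K V] [Fintype V]

/-- `f` does not change in the directions `N ⊓ D` on `S`. -/
def Inv (D : Submodule K V) (f : V → K) (N : Submodule K V) (S : Finset V) : Prop :=
  ∀ x ∈ S, ∀ n ∈ N, n ∈ D → f (x + n) = f x

/-- `f` is constant on `S`. -/
def Con (f : V → K) (S : Finset V) : Prop := ∃ w, ∀ x ∈ S, f x = w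

omit [Fintype K] [Fintype V] in
lemma Inv.mono {D N N' : Submodule K V} {S S' : Finset V} {f : V → K} (h : Inv D f N S)
    (hN : N' ≤ N) (hS : S' ⊆ S) : Inv D f N' S' :=
  fun x hx n hn hnD => h x (hS hx) n (hN hn) hnD

omit [Fintype K] [Fintype V] [Module K V] [AddCommGroup V] in
lemma Con.mono {S S' : Finset V} {f : V → K} (h : Con f S) (hS : S' ⊆ S) :
    Con f S' := by
  obtain ⟨w, hw⟩ := h
  exact ⟨w, fun x hx => hw x (hS hx)⟩

variable {D : Submodule K V} {M : Submodule K (V → K)} {N : Submodule K V} {S : Unit → Finset V}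
  {s : Unit → ℕ}

omit [Fintype K] in
lemma Con.inv (h : State (fun _ : Unit => D) M N S s) {f : V → K} (hf : Con f (S ())) :
    Inv D f N (S ()) := by
  obtain ⟨w, hw⟩ := hf
  intro x hx n hn hnD
  rw [hw x hx, hw _ (h.closed () x hx n hn hnD)]

omit [Fintype K] in
lemma add_gate (h : State (fun _ : Unit => D) M N S s) {g : V → K}
    (hg : ∃ δ : V →ₗ[K] K, ∀ x ∈ S (), ∀ n ∈ N, n ∈ D → g (x + n) = g x + δ n) :
    State (fun _ : Unit => D) (M ⊔ Submodule.span K {g}) N S s where
  closed := h.closed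
  fib := h.fib
  pos := h.pos
  lin := by
    intro f hf
    obtain ⟨e, he, y, hy, rfl⟩ := Submodule.mem_sup.1 hf
    obtain ⟨μ, rfl⟩ := Submodule.mem_span_singleton.1 hy
    obtain ⟨α, hα⟩ := h.lin e he
    obtain ⟨δ, hδ⟩ := hg
    refine ⟨α + μ • δ, fun i x hx n hn hnD => ?_⟩
    simp only [Pi.add_apply, Pi.smul_apply, smul_eq_mul, LinearMap.add_apply,
      LinearMap.smul_apply]
    rw [hα i x hx n hn hnD, hδ x hx n hn hnD]
    ring

lemma fix_one (h : State (fun _ : Unit => D) M N S s) {f : V → K} (hf : f ∈ M) (bad : V → Prop) :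
    ∃ (N' : Submodule K V) (S' : Unit → Finset V) (s' : Unit → ℕ) (j : ℕ),
      State (fun _ : Unit => D) M N' S' s' ∧ j ≤ 1 ∧ finrank K N ≤ finrank K N' + j ∧
      pot bad S' ≤ pot bad S ∧ N' ≤ N ∧ S' () ⊆ S () ∧
      (Con f (S' ()) ∨ Inv D f N' (S' ())) ∧ (j = 1 → Con f (S' ())) := by
  obtain ⟨β, hβ⟩ := h.lin f hf
  by_cases h1 : ∃ n ∈ N, n ∈ D ∧ β n ≠ 0
  · have hfix : Fixes (fun _ : Unit => D) N S f f (fun _ => 0) β β 0 1 := by
      intro w
      refine ⟨0, fun i => ⟨fun _ x _ _ n _ _ _ => by simp, fun _ x _ n _ _ => by simp⟩⟩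
    obtain ⟨N', S', s', g1, g2, g3, g4, g5, w, g6⟩ := step h hβ hβ hfix bad
    have e : M ⊔ Submodule.span K {(fun _ => 0 : V → K)} = M := by
      have : (fun _ => 0 : V → K) = 0 := rfl
      rw [this, Submodule.span_zero_singleton, sup_bot_eq]
    rw [e] at g1
    have hc : Con f (S' ()) := by
      refine ⟨w, fun x hx => ?_⟩
      have := g6 () (by simpa using h1) x hx
      simpa using this
    exact ⟨N', S', s', 1, g1, le_rfl, g2, g3, g4, g5 (), Or.inl hc, fun _ => hc⟩
  · push Not at h1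
    refine ⟨N, S, s, 0, h, by omega, by omega, le_rfl, le_rfl, Finset.Subset.refl _, Or.inr ?_,
      fun h0 => absurd h0 (by omega)⟩
    intro x hx n hn hnD
    rw [hβ () x hx n hn hnD, h1 n hn hnD, add_zero]

lemma fix_many (h : State (fun _ : Unit => D) M N S s) (bad : V → Prop) :
    ∀ l : List (V → K), (∀ f ∈ l, f ∈ M) →
    ∃ (N' : Submodule K V) (S' : Unit → Finset V) (s' : Unit → ℕ) (j : ℕ),
      State (fun _ : Unit => D) M N' S' s' ∧ j ≤ l.length ∧ finrank K N ≤ finrank K N' + j ∧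
      pot bad S' ≤ pot bad S ∧ N' ≤ N ∧ S' () ⊆ S () ∧
      (∀ f ∈ l, Con f (S' ()) ∨ Inv D f N' (S' ())) ∧
      (j = l.length → ∀ f ∈ l, Con f (S' ()))
  | [], _ => ⟨N, S, s, 0, h, le_rfl, le_rfl, le_rfl, le_rfl, Finset.Subset.refl _, by simp,
      by simp⟩
  | f :: l, hl => by
    obtain ⟨N1, S1, s1, j1, a1, a2, a3, a4, a5, a6, a7, a8⟩ :=
      fix_many h bad l (fun g hg => hl g (List.mem_cons_of_mem _ hg))
    obtain ⟨N2, S2, s2, j2, b1, b2, b3, b4, b5, b6, b7, b8⟩ :=
      fix_one a1 (hl f List.mem_cons_self) bad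
    refine ⟨N2, S2, s2, j1 + j2, b1, ?_, by omega, b4.trans a4, b5.trans a5, b6.trans a6, ?_, ?_⟩
    · rw [List.length_cons]; omega
    · intro g hg
      rcases List.mem_cons.1 hg with rfl | hg
      · exact b7
      · rcases a7 g hg with h1 | h1
        · exact Or.inl (h1.mono b6)
        · exact Or.inr (h1.mono b5 b6)
    · intro hj g hg
      rw [List.length_cons] at hj
      rcases List.mem_cons.1 hg with rfl | hg
      · exact b8 (by omega)
      · exact (a8 (by omega) g hg).mono b6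

/-- One step with `k` arguments costs `k` directions. -/
lemma step_multi (h : State (fun _ : Unit => D) M N S s) (bad : V → Prop) {k : ℕ} (hk : 1 ≤ k)
    {a : V → K} {b : Fin k → V → K} (φ ψ : (Fin k → K) → K) (ha : a ∈ M) (hb : ∀ i, b i ∈ M) :
    ∃ (N' : Submodule K V) (S' : Unit → Finset V) (s' : Unit → ℕ),
      State (fun _ : Unit => D) (M ⊔ Submodule.span K
        {fun x => a x * φ (fun i => b i x) + ψ (fun i => b i x)}) N' S' s' ∧
      finrank K N ≤ finrank K N' + k ∧ pot bad S' ≤ pot bad S := by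
  obtain ⟨N1, S1, s1, j1, a1, a2, a3, a4, a5, a6, a7, a8⟩ := fix_many h bad (List.ofFn b)
    (fun f hf => by
      obtain ⟨i, rfl⟩ := (List.mem_ofFn' b f).1 hf
      exact hb i)
  rw [List.length_ofFn] at a2 a8
  have hmem : ∀ i, b i ∈ List.ofFn b := fun i => (List.mem_ofFn' b (b i)).2 ⟨i, rfl⟩
  rcases Nat.lt_or_ge j1 k with hj | hj
  · obtain ⟨N2, S2, s2, j2, b1, b2, b3, b4, b5, b6, b7, b8⟩ := fix_one a1 ha bad
    refine ⟨N2, S2, s2, add_gate b1 ⟨0, ?_⟩, by omega, b4.trans a4⟩
    intro x hx n hn hnD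
    have ha' : Inv D a N2 (S2 ()) := by
      rcases b7 with h1 | h1
      · exact h1.inv b1
      · exact h1
    have hb' : ∀ i, Inv D (b i) N2 (S2 ()) := by
      intro i
      rcases a7 (b i) (hmem i) with h1 | h1
      · exact (h1.mono b6).inv b1
      · exact h1.mono b5 b6
    have e : (fun i => b i (x + n)) = fun i => b i x := by
      ext i
      exact hb' i x hx n hn hnD
    simp only [e, ha' x hx n hn hnD, LinearMap.zero_apply, add_zero]
  · have hc := a8 (by omega)
    have hc' : ∀ i, ∃ w, ∀ x ∈ S1 (), b i x = w := fun i => hc (b i) (hmem i)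
    choose w hw using hc'
    obtain ⟨α, hα⟩ := a1.lin a ha
    refine ⟨N1, S1, s1, add_gate a1 ⟨φ w • α, ?_⟩, by omega, a4⟩
    intro x hx n hn hnD
    have e1 : (fun i => b i x) = w := by
      ext i
      exact hw i x hx
    have e2 : (fun i => b i (x + n)) = w := by
      ext i
      exact hw i _ (a1.closed () x hx n hn hnD)
    simp only [e1, e2, hα () x hx n hn hnD, LinearMap.smul_apply, smul_eq_mul]
    ring

theorem process_multi {L : Submodule K (V → K)} {t k : ℕ} (hk : 1 ≤ k)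
    (hM : Steps k L t M) (bad : V → Prop) (h : State (fun _ : Unit => D) L N S s) :
    ∃ (N' : Submodule K V) (S' : Unit → Finset V) (s' : Unit → ℕ),
      State (fun _ : Unit => D) M N' S' s' ∧ finrank K N ≤ finrank K N' + k * t ∧
      pot bad S' ≤ pot bad S := by
  induction hM with
  | start => exact ⟨N, S, s, h, by omega, le_rfl⟩
  | step a b φ ψ _ ha hb ih =>
    obtain ⟨N1, S1, s1, h1, h2, h3⟩ := ih
    obtain ⟨N2, S2, s2, g1, g2, g3⟩ := step_multi h1 bad hk φ ψ ha hb
    exact ⟨N2, S2, s2, g1, by rw [Nat.mul_succ]; omega, g3.trans h3⟩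

end Pool.Agent.H703.FF
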