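import Pool.Agent.H703.FF.Count
import Pool.Agent.H703.FF.Multi
import Pool.Agent.H703.FF.Lin

/-!
# Programs for the product of two matrices over a finite field
-/

namespace Pool.Agent.H703.FF

open Finset Module Matrix
open scoped Classical

section mults

variable {X K : Type} [Field K]

lemma finrank_span_singleton_le' {V : Type} [AddCommGroup V] [Module K V] (v : V) :
    finrank K (Submodule.span K {v}) ≤ 1 := by
  by_cases hv : v = 0
  · subst hv
    rw [Submodule.span_zero_singleton]
    simp
  · rw [finrank_span_singleton hv]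

lemma steps_split {k : ℕ} {L : Submodule K (X → K)} {T : ℕ} :
    ∀ {s : ℕ} {M : Submodule K (X → K)}, Steps k L (T + s) M →
      ∃ M1, Steps k L T M1 ∧ Steps k M1 s M
  | 0, M, h => ⟨M, h, Steps.start⟩
  | s + 1, M, h => by
    have h' : Steps k L (T + s + 1) M := h
    cases h' with
    | step a b φ ψ h1 ha hb =>
      obtain ⟨M1, h2, h3⟩ := steps_split h1
      exact ⟨M1, h2, Steps.step a b φ ψ h3 ha hb⟩

lemma steps_map {k : ℕ} {Y : Type} (σ : Y → X) {L M : Submodule K (X → K)} {t : ℕ}
    (h : Steps k L t M) :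
    Steps k (L.map (LinearMap.funLeft K K σ)) t (M.map (LinearMap.funLeft K K σ)) := by
  induction h with
  | start => exact Steps.start
  | step a b φ ψ _ ha hb ih =>
    rw [Submodule.map_sup, Submodule.map_span, Set.image_singleton]
    exact Steps.step (LinearMap.funLeft K K σ a) (fun i => LinearMap.funLeft K K σ (b i)) φ ψ ih
      (Submodule.mem_map_of_mem ha) (fun i => Submodule.mem_map_of_mem (hb i))

/-- One step increases the dimension at most by one. -/
lemma finrank_comap_steps {k : ℕ} {L M : Submodule K (X → K)} {s : ℕ} (h : Steps k L s M)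
    {W : Type} [AddCommGroup W] [Module K W] [FiniteDimensional K W] (f : W →ₗ[K] (X → K)) :
    finrank K (M.comap f) ≤ finrank K (L.comap f) + s := by
  induction h with
  | start => exact le_rfl
  | @step t M a b φ ψ _ _ _ ih =>
    set g : X → K := fun x => a x * φ (fun i => b i x) + ψ (fun i => b i x) with hg'
    have key : finrank K ((M ⊔ Submodule.span K {g}).comap f) ≤ finrank K (M.comap f) + 1 := by
      set P := (M ⊔ Submodule.span K {g}).comap f with hP
      let θ : P →ₗ[K] (X → K) ⧸ M := (M.mkQ.comp f).comp P.subtype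
      have h1 := θ.finrank_range_add_finrank_ker
      have h2 : finrank K (LinearMap.range θ) ≤ 1 := by
        have h3 : LinearMap.range θ ≤ Submodule.span K {M.mkQ g} := by
          rintro _ ⟨p, rfl⟩
          have hp : f p ∈ M ⊔ Submodule.span K {g} := p.2
          obtain ⟨e, he, y, hy, hgy⟩ := Submodule.mem_sup.1 hp
          obtain ⟨μ, rfl⟩ := Submodule.mem_span_singleton.1 hy
          have h4 : θ p = μ • M.mkQ g := by
            have h5 : θ p = M.mkQ (f p) := rfl
            rw [h5, ← hgy, map_add, map_smul]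
            have h6 : M.mkQ e = 0 := by
              rw [Submodule.mkQ_apply]
              exact (Submodule.Quotient.mk_eq_zero M).2 he
            rw [h6, zero_add]
          rw [h4]
          exact Submodule.smul_mem _ _ (Submodule.mem_span_singleton_self _)
        have h4 := Submodule.finrank_mono h3
        exact h4.trans (finrank_span_singleton_le' _)
      have h3 : finrank K (LinearMap.ker θ) = finrank K (M.comap f) := by
        have e : (LinearMap.ker θ).map P.subtype = M.comap f := by
          ext x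
          simp only [Submodule.mem_map, LinearMap.mem_ker, Submodule.subtype_apply,
            Submodule.mem_comap]
          constructor
          · rintro ⟨y, hy, rfl⟩
            have h5 : M.mkQ (f y) = 0 := hy
            rw [Submodule.mkQ_apply] at h5
            exact (Submodule.Quotient.mk_eq_zero M).1 h5
          · intro hx
            refine ⟨⟨x, Submodule.mem_sup_left hx⟩, ?_, rfl⟩
            change M.mkQ (f x) = 0
            rw [Submodule.mkQ_apply]
            exact (Submodule.Quotient.mk_eq_zero M).2 hx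
        rw [← e]
        exact (Submodule.finrank_map_subtype_eq P _).symm
      omega
    omega

end mults

variable {K : Type} [Field K] [Fintype K] {m : ℕ}

omit [Fintype K] in
lemma affine_spec {f : Pairs K m → K} (hf : f ∈ affine K m) :
    ∃ α : Pairs K m →ₗ[K] K, ∀ x n, f (x + n) = f x + α n := by
  induction hf using Submodule.span_induction with
  | mem f hf =>
    rcases hf with hf | ⟨p, rfl⟩ | ⟨p, rfl⟩
    · rw [Set.mem_singleton_iff] at hf
      subst hf
      exact ⟨0, fun x n => by simp⟩
    · refine ⟨{ toFun := fun x => x.1 p.1 p.2, map_add' := fun x y => by simp,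
                map_smul' := fun c x => by simp }, fun x n => rfl⟩
    · refine ⟨{ toFun := fun x => x.2 p.1 p.2, map_add' := fun x y => by simp,
                map_smul' := fun c x => by simp }, fun x n => rfl⟩
  | zero => exact ⟨0, fun x n => by simp⟩
  | add f g _ _ hf hg =>
    obtain ⟨α, hα⟩ := hf
    obtain ⟨β, hβ⟩ := hg
    exact ⟨α + β, fun x n => by
      simp only [Pi.add_apply, LinearMap.add_apply, hα, hβ]; ring⟩
  | smul c f _ hf =>
    obtain ⟨α, hα⟩ := hf
    exact ⟨c • α, fun x n => by
      simp only [Pi.smul_apply, LinearMap.smul_apply, hα, smul_eq_mul]; ring⟩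

omit [Fintype K] in
/-- a function which depends on the entries linearly -/
lemma trace_mem {X : Type} {M : Submodule K (X → K)} {F : X → Matrix (Fin m) (Fin m) K}
    (hF : ∀ i j, (fun x => F x i j) ∈ M) (C : Matrix (Fin m) (Fin m) K) :
    (fun x => (C * F x).trace) ∈ M := by
  have h : (fun x => (C * F x).trace) = ∑ i, ∑ j, C i j • (fun x => F x j i) := by
    ext x
    simp [Matrix.trace, Matrix.mul_apply, Finset.sum_apply]
  rw [h]
  exact Submodule.sum_mem _ fun i _ => Submodule.sum_mem _ fun j _ => Submodule.smul_mem _ _ (hF j i)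

omit [Fintype K] in
/-- a nonzero linear form vanishes on at most half of the points -/
lemma half_le {V : Type} [AddCommGroup V] [Module K V] [Fintype V] (l : V →ₗ[K] K) (h : l ≠ 0) :
    2 * (univ.filter fun x : V => l x = 0).card ≤ Fintype.card V := by
  obtain ⟨v, hv⟩ : ∃ v, l v ≠ 0 := by
    by_contra hc
    push Not at hc
    exact h (LinearMap.ext hc)
  have h1 : (univ.filter fun x : V => l x = 0).card ≤ (univ.filter fun x : V => ¬ l x = 0).card := by
    refine Finset.card_le_card_of_injOn (fun x => x + v) ?_ ?_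
    · intro x hx
      simp only [coe_filter, mem_univ, true_and, Set.mem_ofPred_eq] at hx ⊢
      rw [map_add, hx, zero_add]
      exact hv
    · intro x _ y _ hxy
      exact add_left_injective v hxy
  have h2 := Finset.card_filter_add_card_filter_not (s := (univ : Finset V)) (p := fun x => l x = 0)
  rw [Finset.card_univ] at h2
  omega

/-- `F` does not compute the product at `x`. -/
def Bad (F : Pairs K m → Matrix (Fin m) (Fin m) K) (x : Pairs K m) : Prop := F x ≠ x.1 * x.2

/-- The pairs `(A, 0)`. -/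
def dirA (K : Type) [Field K] (m : ℕ) : Submodule K (Pairs K m) :=
  LinearMap.ker (LinearMap.snd K (Matrix (Fin m) (Fin m) K) (Matrix (Fin m) (Fin m) K))

/-- The pairs `(0, B)`. -/
def dirB (K : Type) [Field K] (m : ℕ) : Submodule K (Pairs K m) :=
  LinearMap.ker (LinearMap.fst K (Matrix (Fin m) (Fin m) K) (Matrix (Fin m) (Fin m) K))

omit [Fintype K] in
lemma mem_dirA {x : Pairs K m} : x ∈ dirA K m ↔ x.2 = 0 := Iff.rfl

omit [Fintype K] in
lemma mem_dirB {x : Pairs K m} : x ∈ dirB K m ↔ x.1 = 0 := Iff.rfl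

/-- The linear form `x ↦ trace (C (n₁ x₂ + x₁ n₂))`. -/
def polar (C : Matrix (Fin m) (Fin m) K) (n : Pairs K m) : Pairs K m →ₗ[K] K where
  toFun x := (C * (n.1 * x.2 + x.1 * n.2)).trace
  map_add' x y := by
    simp only [Prod.fst_add, Prod.snd_add, Matrix.mul_add, Matrix.add_mul, Matrix.trace_add]
    ring
  map_smul' c x := by
    simp [Matrix.trace_add, mul_add]

omit [Fintype K] in
lemma polar_apply (C : Matrix (Fin m) (Fin m) K) (n x : Pairs K m) :
    polar C n x = (C * (n.1 * x.2 + x.1 * n.2)).trace := rfl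

omit [Fintype K] in
lemma finrank_mat : finrank K (Matrix (Fin m) (Fin m) K) = m ^ 2 := by
  rw [Module.finrank_matrix]
  simp [sq]

omit [Fintype K] in
lemma finrank_pairs : finrank K (Pairs K m) = 2 * m ^ 2 := by
  rw [Module.finrank_prod, finrank_mat]
  ring

lemma codim_le_one (G : Submodule K (Matrix (Fin m) (Fin m) K))
    (h4 : Fintype.card (Matrix (Fin m) (Fin m) K) ≤ 3 * Fintype.card G) :
    m ^ 2 ≤ finrank K G + 1 := by
  have h5 : Fintype.card (Matrix (Fin m) (Fin m) K) = Fintype.card K ^ (m ^ 2) := by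
    rw [← Nat.card_eq_fintype_card, ← Nat.card_eq_fintype_card,
      Module.natCard_eq_pow_finrank (K := K), finrank_mat]
  have h6 : Fintype.card G = Fintype.card K ^ (finrank K G) := by
    rw [← Nat.card_eq_fintype_card, ← Nat.card_eq_fintype_card,
      Module.natCard_eq_pow_finrank (K := K)]
  have hq : 2 ≤ Fintype.card K := Fintype.one_lt_card
  by_contra hlt
  have h7 : finrank K G + 2 ≤ m ^ 2 := by omega
  have h8 : Fintype.card K ^ (finrank K G + 2) ≤ Fintype.card K ^ (m ^ 2) :=
    Nat.pow_le_pow_right (by omega) h7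
  rw [h5, h6] at h4
  have h9 : 0 < Fintype.card K ^ finrank K G := Nat.pow_pos (by omega)
  have h10 : 4 ≤ Fintype.card K ^ 2 := by nlinarith
  have h11 : Fintype.card K ^ finrank K G * 4 ≤ 3 * Fintype.card K ^ finrank K G := by
    calc Fintype.card K ^ finrank K G * 4 ≤ Fintype.card K ^ finrank K G * Fintype.card K ^ 2 :=
          Nat.mul_le_mul_left _ h10
      _ = Fintype.card K ^ (finrank K G + 2) := (pow_add _ _ _).symm
      _ ≤ 3 * Fintype.card K ^ finrank K G := h8.trans h4
  omega

/-- **One view.** A space of functions which is reached with `T` steps contains few of the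
functions `trace (C F)` where `F x = x.1 * x.2` for two thirds of the `x`. -/
theorem viewA {L M : Submodule K (Pairs K m → K)} {T k : ℕ} (hk : 1 ≤ k)
    (hL : ∀ f ∈ L, ∃ α : Pairs K m →ₗ[K] K, ∀ x n, f (x + n) = f x + α n) (hM : Steps k L T M)
    (F : Pairs K m → Matrix (Fin m) (Fin m) K)
    (hbad : ((univ.filter fun x : Pairs K m => Bad F x).card : ℝ) /
      (Fintype.card (Pairs K m) : ℝ) ≤ 1 / 3)
    (C : Submodule K (Matrix (Fin m) (Fin m) K)) (hC : ∀ A ∈ C, (fun x => (A * F x).trace) ∈ M) :
    m ^ 2 ≤ k * T + (m - finrank K (comKer C)) + m * finrank K (comKer C) := by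
  obtain ⟨N, S, s, hst, hfin, hpot⟩ := process_multi hk hM
    (Bad F) (State.init (fun _ : Unit => dirA K m) hL)
  simp only [pot, Finset.univ_unique, Finset.sum_singleton] at hpot
  have hρ : (((S default).filter fun x => Bad F x).card : ℝ) / ((S default).card : ℝ) ≤
      1 / 3 := by
    refine hpot.trans ?_
    rw [Finset.card_univ]
    exact hbad
  have hα : ∀ A : Matrix (Fin m) (Fin m) K, ∃ α : Pairs K m →ₗ[K] K, A ∈ C →
      ∀ x ∈ S default, ∀ n ∈ N, n ∈ dirA K m →
        (A * F (x + n)).trace = (A * F x).trace + α n := by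
    intro A
    by_cases h : A ∈ C
    · obtain ⟨α, h1⟩ := hst.lin _ (hC A h)
      exact ⟨α, fun _ x hx n hn hnD => h1 default x hx n hn hnD⟩
    · exact ⟨0, fun h' => absurd h' h⟩
  choose α hα using hα
  obtain ⟨G0, hG0, hcount⟩ := view_count (hst.closed default) (hst.fib default) (hst.pos default)
    (T := Matrix (Fin m) (Fin m) K × Pairs K m)
    {τ | τ.1 ∈ C ∧ τ.2 ∈ N ∧ τ.2 ∈ dirA K m} (fun τ => τ.2) (fun τ hτ => hτ.2.1)
    (fun τ hτ => hτ.2.2) (fun τ => polar τ.1 τ.2) (fun τ => α τ.1 τ.2)
    (Bad F)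
    (by
      rintro ⟨A, n⟩ ⟨hA, hn, hnD⟩ x hx h1 h2
      simp only [Bad, not_not] at h1 h2
      have h3 := hα A hA x hx n hn hnD
      rw [h1, h2] at h3
      have h4 : n.2 = 0 := mem_dirA.1 hnD
      simp only [polar_apply]
      rw [Prod.fst_add, Prod.snd_add, h4, add_zero, Matrix.add_mul, Matrix.mul_add,
        Matrix.trace_add] at h3
      rw [h4, Matrix.mul_zero, add_zero]
      linear_combination h3)
    (by
      rintro ⟨A, n⟩ ⟨hA, hn, hnD⟩ d hd
      have h4 : n.2 = 0 := mem_dirA.1 hnD
      have h5 : d.2 = 0 := mem_dirA.1 hd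
      simp [polar_apply, h4, h5])
    hρ
  -- the subspace
  let X : Submodule K (Matrix (Fin m) (Fin m) K) := N.comap (LinearMap.inl K _ _)
  have hX : m ^ 2 ≤ finrank K X + k * T := by
    have h1 : X.map (LinearMap.inl K (Matrix (Fin m) (Fin m) K) (Matrix (Fin m) (Fin m) K)) =
        N ⊓ dirA K m := by
      ext x
      simp only [Submodule.mem_map, Submodule.mem_inf, mem_dirA]
      constructor
      · rintro ⟨y, hy, rfl⟩
        exact ⟨hy, rfl⟩
      · rintro ⟨h1, h2⟩
        refine ⟨x.1, ?_, ?_⟩
        · change ((x.1, (0 : Matrix (Fin m) (Fin m) K)) : Pairs K m) ∈ N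
          rw [← h2]
          exact h1
        · change ((x.1, (0 : Matrix (Fin m) (Fin m) K)) : Pairs K m) = x
          rw [← h2]
    have h2 : finrank K X = finrank K (N ⊓ dirA K m : Submodule K (Pairs K m)) := by
      rw [← h1]
      exact (Submodule.equivMapOfInjective _ LinearMap.inl_injective X).finrank_eq
    have h3 := Submodule.finrank_sup_add_finrank_inf_eq N (dirA K m)
    have h4 := Submodule.finrank_le (N ⊔ dirA K m)
    have h5 : finrank K (dirA K m) = m ^ 2 := by
      have h6 := (LinearMap.snd K (Matrix (Fin m) (Fin m) K)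
        (Matrix (Fin m) (Fin m) K)).finrank_range_add_finrank_ker
      rw [LinearMap.range_eq_top.2 LinearMap.snd_surjective, finrank_top, finrank_mat,
        finrank_pairs] at h6
      have h7 : finrank K (dirA K m) = finrank K (LinearMap.ker (LinearMap.snd K
        (Matrix (Fin m) (Fin m) K) (Matrix (Fin m) (Fin m) K))) := rfl
      omega
    rw [finrank_pairs] at h4
    rw [finrank_top, finrank_pairs] at hfin
    omega
  let G : Submodule K (Matrix (Fin m) (Fin m) K) :=
    { carrier := {B | ∀ A ∈ C, ∀ D ∈ X, (A * D * B).trace = 0}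
      add_mem' := fun {B B'} hB hB' A hA D hD => by
        rw [Matrix.mul_add, Matrix.trace_add, hB A hA D hD, hB' A hA D hD, add_zero]
      zero_mem' := fun A _ D _ => by simp
      smul_mem' := fun c B hB A hA D hD => by
        rw [Matrix.mul_smul, Matrix.trace_smul, hB A hA D hD, smul_zero] }
  have hG : m ^ 2 ≤ finrank K G + 1 := by
    have h1 : ∀ s : Finset (Pairs K m),
        (∀ x ∈ s, ∀ A ∈ C, ∀ n ∈ N, n ∈ dirA K m → polar A n x = 0) →
        s.card ≤ Fintype.card (Matrix (Fin m) (Fin m) K) * Fintype.card G := by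
      intro s hs
      have h2 : s ⊆ (univ : Finset (Matrix (Fin m) (Fin m) K)) ×ˢ
          (univ.filter fun B : Matrix (Fin m) (Fin m) K => B ∈ G) := by
        intro x hx
        rw [Finset.mem_product]
        refine ⟨mem_univ _, ?_⟩
        simp only [mem_filter, mem_univ, true_and]
        intro A hA D hD
        have h3 := hs x hx A hA (D, 0) hD rfl
        simp only [polar_apply, Matrix.mul_zero, add_zero] at h3
        rw [Matrix.mul_assoc]
        exact h3
      refine (Finset.card_le_card h2).trans ?_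
      rw [Finset.card_product, Finset.card_univ]
      have h4 : (univ.filter fun B : Matrix (Fin m) (Fin m) K => B ∈ G).card = Fintype.card G := by
        rw [Fintype.card_subtype]
      rw [h4]
    have h2 : (Fintype.card (Pairs K m) : ℝ) / 3 ≤
        (Fintype.card (Matrix (Fin m) (Fin m) K) : ℝ) * (Fintype.card G : ℝ) := by
      have h3 := hcount.trans (Nat.cast_le.2 (h1 G0 (fun x hx A hA n hn hnD =>
        hG0 x hx (A, n) ⟨hA, hn, hnD⟩)))
      push_cast at h3
      linarith
    have hmat : (0 : ℝ) < (Fintype.card (Matrix (Fin m) (Fin m) K) : ℝ) := by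
      exact_mod_cast Fintype.card_pos
    have h3 : (Fintype.card (Matrix (Fin m) (Fin m) K) : ℝ) ≤ 3 * (Fintype.card G : ℝ) := by
      have h4 : (Fintype.card (Pairs K m) : ℝ) =
          (Fintype.card (Matrix (Fin m) (Fin m) K) : ℝ) *
            (Fintype.card (Matrix (Fin m) (Fin m) K) : ℝ) := by
        rw [Fintype.card_prod]
        push_cast
        ring
      rw [h4] at h2
      have h5 : (Fintype.card (Matrix (Fin m) (Fin m) K) : ℝ) *
          (Fintype.card (Matrix (Fin m) (Fin m) K) : ℝ) ≤
          (Fintype.card (Matrix (Fin m) (Fin m) K) : ℝ) * (3 * (Fintype.card G : ℝ)) := by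
        linarith
      exact le_of_mul_le_mul_left h5 hmat
    have h4 : Fintype.card (Matrix (Fin m) (Fin m) K) ≤ 3 * Fintype.card G := by exact_mod_cast h3
    exact codim_le_one G h4
  have h := finrank_le_comKer C X G hG (fun A hA D hD B hB => hB A hA D hD)
  omega

/-- `(A, B) ↦ (Bᵀ, Aᵀ)` -/
def flip (K : Type) [Field K] (m : ℕ) : Pairs K m →ₗ[K] Pairs K m where
  toFun x := (x.2ᵀ, x.1ᵀ)
  map_add' x y := by simp
  map_smul' c x := by simp

omit [Fintype K] in
lemma flip_apply (x : Pairs K m) : flip K m x = (x.2ᵀ, x.1ᵀ) := rfl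

omit [Fintype K] in
lemma flip_flip (x : Pairs K m) : flip K m (flip K m x) = x := by simp [flip_apply]

/-- the other view -/
theorem viewB {L M : Submodule K (Pairs K m → K)} {T k : ℕ} (hk : 1 ≤ k)
    (hL : ∀ f ∈ L, ∃ α : Pairs K m →ₗ[K] K, ∀ x n, f (x + n) = f x + α n) (hM : Steps k L T M)
    (F : Pairs K m → Matrix (Fin m) (Fin m) K)
    (hbad : ((univ.filter fun x : Pairs K m => Bad F x).card : ℝ) /
      (Fintype.card (Pairs K m) : ℝ) ≤ 1 / 3)
    (C : Submodule K (Matrix (Fin m) (Fin m) K)) (hC : ∀ A ∈ C, (fun x => (A * F x).trace) ∈ M) :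
    m ^ 2 ≤ k * T + (m - finrank K (comCoker C)) + m * finrank K (comCoker C) := by
  let C' : Submodule K (Matrix (Fin m) (Fin m) K) :=
    C.map (Matrix.transposeLinearEquiv (Fin m) (Fin m) K K).toLinearMap
  have hC' : ∀ A, A ∈ C' ↔ Aᵀ ∈ C := by
    intro A
    constructor
    · rintro ⟨B, hB, rfl⟩
      simpa using hB
    · intro h
      exact ⟨Aᵀ, h, by simp⟩
  have hker : comKer C' = comCoker C := by
    ext v
    constructor
    · intro h A hA
      have h1 := h Aᵀ ((hC' _).2 (by simpa using hA))
      rwa [Matrix.mulVec_transpose] at h1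
    · intro h A hA
      have h1 := h Aᵀ ((hC' _).1 hA)
      rwa [Matrix.vecMul_transpose] at h1
  rw [← hker]
  refine viewA (L := L.map (LinearMap.funLeft K K (flip K m))) hk ?_ (steps_map (flip K m) hM)
    (fun x => (F (flip K m x))ᵀ) ?_ C' ?_
  · rintro _ ⟨f, hf, rfl⟩
    obtain ⟨α, hα⟩ := hL f hf
    refine ⟨α.comp (flip K m), fun x n => ?_⟩
    simp only [LinearMap.funLeft_apply, map_add, LinearMap.comp_apply]
    exact hα _ _
  · refine le_trans (le_of_eq ?_) hbad
    congr 2
    refine Finset.card_bij (fun x _ => flip K m x) ?_ ?_ ?_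
    · intro x hx
      have hx := (Finset.mem_filter.1 hx).2
      refine Finset.mem_filter.2 ⟨mem_univ _, fun h => hx ?_⟩
      change (F (flip K m x))ᵀ = x.1 * x.2
      rw [h, flip_apply, Matrix.transpose_mul, Matrix.transpose_transpose,
        Matrix.transpose_transpose]
    · intro x _ y _ h
      have := congrArg (flip K m) h
      rwa [flip_flip, flip_flip] at this
    · intro y hy
      have hy := (Finset.mem_filter.1 hy).2
      refine ⟨flip K m y, Finset.mem_filter.2 ⟨mem_univ _, fun h => hy ?_⟩, flip_flip y⟩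
      change (F (flip K m (flip K m y)))ᵀ = _ at h
      rw [flip_flip] at h
      have h2 := congrArg Matrix.transpose h
      rw [Matrix.transpose_transpose, flip_apply, Matrix.transpose_mul, Matrix.transpose_transpose,
        Matrix.transpose_transpose] at h2
      exact h2
  · intro A hA
    have h1 := hC Aᵀ ((hC' A).1 hA)
    refine ⟨_, h1, ?_⟩
    ext x
    simp only [LinearMap.funLeft_apply]
    rw [← Matrix.trace_transpose (Aᵀ * _), Matrix.transpose_mul, Matrix.transpose_transpose,
      Matrix.trace_mul_comm]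

omit [Field K] [Fintype K] in
lemma arith {n k s ρ T0 t : ℕ} (hk : 1 ≤ k) (hρ : ρ < 2 * k) (hn : n = 2 * k * s + ρ)
    (hT : n * (s + 1) ≤ k * T0 + k) (h : (n + 1) ^ 2 + T0 ≤ t + s * s) :
    4 * k ^ 2 * (n + 1) ^ 2 + n ^ 2 ≤ 4 * k ^ 2 * (t + 1) := by
  -- multiply by `k`
  have h8 : k * (n + 1) ^ 2 + n * (s + 1) ≤ k * t + k * (s * s) + k := by
    have h9 := Nat.mul_le_mul_left k h
    have h10 : k * ((n + 1) ^ 2 + T0) = k * (n + 1) ^ 2 + k * T0 := by ring
    have h11 : k * (t + s * s) = k * t + k * (s * s) := by ring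
    omega
  have h9 : n ^ 2 + 4 * k ^ 2 * (s * s) ≤ 4 * k * (n * (s + 1)) := by
    have e1 : n ^ 2 = 4 * k ^ 2 * (s * s) + 4 * k * s * ρ + ρ * ρ := by rw [hn]; ring
    have e2 : 4 * k * (n * (s + 1)) =
        8 * k ^ 2 * (s * s) + 4 * k * s * ρ + (8 * k ^ 2 * s + 4 * k * ρ) := by rw [hn]; ring
    have e3 : ρ * ρ ≤ 4 * k * ρ := Nat.mul_le_mul_right ρ (by omega)
    rw [e1, e2]
    nlinarith
  have h10 := Nat.mul_le_mul_left (4 * k) h8
  have e1 : 4 * k * (k * (n + 1) ^ 2 + n * (s + 1)) =
      4 * k ^ 2 * (n + 1) ^ 2 + 4 * k * (n * (s + 1)) := by ring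
  have e2 : 4 * k * (k * t + k * (s * s) + k) = 4 * k ^ 2 * (t + 1) + 4 * k ^ 2 * (s * s) := by ring
  rw [e1, e2] at h10
  omega

/-- **All finite fields.** -/
theorem bound_all {t k : ℕ} (hk : 1 ≤ k) {F : Pairs K m → Matrix (Fin m) (Fin m) K}
    (h : Computes k t F)
    (hbad : ((univ.filter fun x : Pairs K m => Bad F x).card : ℝ) /
      (Fintype.card (Pairs K m) : ℝ) ≤ 1 / 3) :
    4 * k ^ 2 * m ^ 2 + (m - 1) ^ 2 ≤ 4 * k ^ 2 * (t + 1) := by
  obtain ⟨t', ht', M, hM, hF⟩ := h
  -- the main inequality
  have main : ∀ T ≤ t', ∃ r r' : ℕ, r ≤ m ∧ r' ≤ m ∧ m ^ 2 + T ≤ t' + r * r' ∧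
      m * r ≤ k * T + r ∧ m * r' ≤ k * T + r' := by
    intro T hT
    obtain ⟨s, rfl⟩ := Nat.exists_eq_add_of_le hT
    obtain ⟨M1, h1, h2⟩ := steps_split hM
    let φ : Matrix (Fin m) (Fin m) K →ₗ[K] (Pairs K m → K) :=
      { toFun := fun C x => (C * F x).trace
        map_add' := fun C D => by ext x; simp [Matrix.add_mul]
        map_smul' := fun c C => by ext x; simp }
    have h3 := finrank_comap_steps h2 φ
    have h4 : M.comap φ = ⊤ := by
      rw [eq_top_iff]
      intro C _
      exact trace_mem hF C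
    rw [h4, finrank_top, finrank_mat] at h3
    set C := M1.comap φ with hCdef
    have hC : ∀ A ∈ C, (fun x => (A * F x).trace) ∈ M1 := fun A hA => hA
    have hA := viewA hk (fun f hf => affine_spec hf) h1 F hbad C hC
    have hB := viewB hk (fun f hf => affine_spec hf) h1 F hbad C hC
    have h5 := finrank_le_kernels C
    have hr : finrank K (comKer C) ≤ m := by
      have := Submodule.finrank_le (comKer C)
      simpa using this
    have hr' : finrank K (comCoker C) ≤ m := by
      have := Submodule.finrank_le (comCoker C)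
      simpa using this
    obtain ⟨r, hr⟩ := Nat.exists_eq_add_of_le hr
    obtain ⟨r', hr'⟩ := Nat.exists_eq_add_of_le hr'
    have e1 : m - finrank K (comKer C) = r := by omega
    have e2 : m - finrank K (comCoker C) = r' := by omega
    rw [e1, e2] at h5
    rw [e1] at hA
    rw [e2] at hB
    refine ⟨r, r', by omega, by omega, by omega, ?_, ?_⟩
    · have e3 : m ^ 2 = m * finrank K (comKer C) + m * r := by
        rw [sq, ← mul_add, ← hr]
      omega
    · have e3 : m ^ 2 = m * finrank K (comCoker C) + m * r' := by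
        rw [sq, ← mul_add, ← hr']
      omega
  rcases Nat.lt_or_ge m 2 with hm | hm
  · have h1 : (m - 1) ^ 2 = 0 := by
      have : m - 1 = 0 := by omega
      rw [this]; rfl
    have h2 : m ^ 2 ≤ t + 1 := by
      interval_cases m <;> omega
    rw [h1, add_zero]
    exact Nat.mul_le_mul_left _ h2
  obtain ⟨n, rfl⟩ : ∃ n, m = n + 1 := ⟨m - 1, by omega⟩
  rw [Nat.add_sub_cancel]
  have hn : 1 ≤ n := by omega
  -- choice of `T`
  obtain ⟨s, ρ, hρ, hnρ⟩ : ∃ s ρ, ρ < 2 * k ∧ n = 2 * k * s + ρ :=
    ⟨n / (2 * k), n % (2 * k), Nat.mod_lt _ (by omega), (Nat.div_add_mod n (2 * k)).symm⟩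
  have small : ∀ T r : ℕ, k * T + 1 ≤ n * (s + 1) → (n + 1) * r ≤ k * T + r → r ≤ s := by
    intro T r h1 h2
    by_contra hc
    have h3 : s + 1 ≤ r := by omega
    have h4 : n * (s + 1) ≤ n * r := Nat.mul_le_mul_left _ h3
    have h5 : (n + 1) * r = n * r + r := by ring
    omega
  have hT1 : 1 ≤ n * (s + 1) := Nat.mul_pos (by omega) (by omega)
  have hsn : s ≤ n := by
    have h1 : 1 * s ≤ 2 * k * s := Nat.mul_le_mul_right s (by omega)
    omega
  obtain ⟨T0, hT0a, hT0b⟩ : ∃ T0, k * T0 + 1 ≤ n * (s + 1) ∧ n * (s + 1) ≤ k * T0 + k := by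
    generalize n * (s + 1) = X at hT1
    have h1 := Nat.div_add_mod (X - 1) k
    have h2 := Nat.mod_lt (X - 1) (show 0 < k by omega)
    exact ⟨(X - 1) / k, by omega, by omega⟩
  rcases Nat.lt_or_ge t' T0 with hlt | hge
  · obtain ⟨r, r', hr, hr', h1, h2, h3⟩ := main t' le_rfl
    have h0 : k * t' ≤ k * T0 := Nat.mul_le_mul_left _ hlt.le
    have h4 := small t' r (by omega) h2
    have h5 := small t' r' (by omega) h3
    have h6 : r * r' ≤ s * s := Nat.mul_le_mul h4 h5
    have h7 : s * s ≤ n * n := Nat.mul_le_mul hsn hsn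
    exfalso
    nlinarith
  · obtain ⟨r, r', hr, hr', h1, h2, h3⟩ := main T0 hge
    have h4 := small _ r hT0a h2
    have h5 := small _ r' hT0a h3
    have h6 : r * r' ≤ s * s := Nat.mul_le_mul h4 h5
    have h7 : (n + 1) ^ 2 + T0 ≤ t + s * s := by omega
    exact arith hk hρ hnρ hT0b h7

end Pool.Agent.H703.FF
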