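import Pool.Agent.H703.FF.Main

/-!
# The field with two elements
-/

namespace Pool.Agent.H703.FF

open Finset Module Matrix
open scoped Classical

variable {K : Type} [Field K] [Fintype K] {m : ℕ}

/-- If less than a quarter of the points of a view are bad then its directions are trivial. -/
theorem polar_eq_zero {D N : Submodule K (Pairs K m)} {S : Finset (Pairs K m)} {s : ℕ}
    (hcl : ∀ x ∈ S, ∀ n ∈ N, n ∈ D → x + n ∈ S)
    (hfib : Fib D S s) (hs : 0 < s)
    {M : Submodule K (Pairs K m → K)} {F : Pairs K m → Matrix (Fin m) (Fin m) K}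
    (hF : ∀ i j, (fun x => F x i j) ∈ M)
    (hlin : ∀ f ∈ M, ∃ α : Pairs K m →ₗ[K] K, ∀ x ∈ S, ∀ n ∈ N, n ∈ D → f (x + n) = f x + α n)
    {u : Pairs K m} (hu : u ∈ N) (huD : u ∈ D) (h0 : u.1 * u.2 = 0)
    (hD : ∀ d ∈ D, u.1 * d.2 + d.1 * u.2 = 0)
    (hρ : ((S.filter (Bad F)).card : ℝ) / (S.card : ℝ) < 1 / 4) : polar 1 u = 0 := by
  obtain ⟨α, hα⟩ := hlin _ (trace_mem hF 1)
  obtain ⟨G0, hG0, hcount⟩ := view_count hcl hfib hs (T := Unit) Set.univ (fun _ => u)
    (fun _ _ => hu) (fun _ _ => huD) (fun _ => polar 1 u) (fun _ => α u) (Bad F)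
    (by
      rintro - - x hx h1 h2
      simp only [Bad, not_not] at h1 h2
      have h3 := hα x hx u hu huD
      rw [h1, h2] at h3
      have h4 : (x + u).1 * (x + u).2 = x.1 * x.2 + (u.1 * x.2 + x.1 * u.2) := by
        rw [Prod.fst_add, Prod.snd_add, Matrix.add_mul, Matrix.mul_add, Matrix.mul_add, h0]
        abel
      rw [h4, Matrix.mul_add, Matrix.trace_add] at h3
      rw [polar_apply]
      linear_combination h3)
    (by
      rintro - - d hd
      rw [polar_apply, hD d hd, Matrix.mul_zero, Matrix.trace_zero])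
    le_rfl
  by_contra hne
  have h1 := half_le (polar 1 u) hne
  have h2 : G0.card ≤ (univ.filter fun x : Pairs K m => polar 1 u x = 0).card := by
    refine Finset.card_le_card fun x hx => ?_
    rw [Finset.mem_filter]
    exact ⟨mem_univ _, hG0 x hx () trivial⟩
  have h3 : (2 : ℝ) * (G0.card : ℝ) ≤ (Fintype.card (Pairs K m) : ℝ) := by
    exact_mod_cast (Nat.mul_le_mul_left 2 h2).trans h1
  have h4 : (0 : ℝ) < (Fintype.card (Pairs K m) : ℝ) := by exact_mod_cast Fintype.card_pos
  have h5 := mul_lt_mul_of_pos_right hρ h4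
  linarith

omit [Fintype K] in
/-- Four good points. -/
lemma four_good {V : Type} [AddCommGroup V] [Module K V] {N : Submodule K V} {S : Finset V}
    (hcl : ∀ x ∈ S, ∀ n ∈ N, x + n ∈ S) (bad : V → Prop)
    (hbad : 4 * (S.filter bad).card < S.card) {u v : V} (hu : u ∈ N) (hv : v ∈ N) :
    ∃ x ∈ S, ¬ bad x ∧ ¬ bad (x + u) ∧ ¬ bad (x + v) ∧ ¬ bad (x + (u + v)) := by
  have h1 : ∀ w ∈ N, (S.filter fun x => bad (x + w)).card ≤ (S.filter bad).card := by
    intro w hw
    refine Finset.card_le_card_of_injOn (fun x => x + w) ?_ ?_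
    · intro x hx
      simp only [coe_filter, Set.mem_ofPred_eq] at hx ⊢
      exact ⟨hcl x hx.1 w hw, hx.2⟩
    · intro x _ y _ hxy
      exact add_left_injective w hxy
  by_contra hc
  push Not at hc
  have h2 : S ⊆ ((S.filter fun x => bad (x + 0)) ∪ (S.filter fun x => bad (x + u))) ∪
      ((S.filter fun x => bad (x + v)) ∪ (S.filter fun x => bad (x + (u + v)))) := by
    intro x hx
    simp only [mem_union, mem_filter, add_zero]
    by_cases a1 : bad x
    · exact Or.inl (Or.inl ⟨hx, a1⟩)
    · by_cases a2 : bad (x + u)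
      · exact Or.inl (Or.inr ⟨hx, a2⟩)
      · by_cases a3 : bad (x + v)
        · exact Or.inr (Or.inl ⟨hx, a3⟩)
        · exact Or.inr (Or.inr ⟨hx, hc x hx a1 a2 a3⟩)
  have h3 := Finset.card_le_card h2
  have h4 := Finset.card_union_le
    ((S.filter fun x => bad (x + 0)) ∪ (S.filter fun x => bad (x + u)))
    ((S.filter fun x => bad (x + v)) ∪ (S.filter fun x => bad (x + (u + v))))
  have h5 := Finset.card_union_le (S.filter fun x => bad (x + 0)) (S.filter fun x => bad (x + u))
  have h6 := Finset.card_union_le (S.filter fun x => bad (x + v))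
    (S.filter fun x => bad (x + (u + v)))
  have h7 := h1 0 N.zero_mem
  have h8 := h1 u hu
  have h9 := h1 v hv
  have h10 := h1 (u + v) (N.add_mem hu hv)
  omega

/-- **The field with two elements.** -/
theorem bound_two (hK : Fintype.card K = 2) {t : ℕ} {F : Pairs K m → Matrix (Fin m) (Fin m) K}
    (h : Computes 1 t F)
    (hbad : ((univ.filter fun x : Pairs K m => Bad F x).card : ℝ) /
      (Fintype.card (Pairs K m) : ℝ) < 1 / 12) :
    3 * m ^ 2 ≤ 2 * t + 1 := by
  obtain ⟨t', ht', M, hM, hF⟩ := h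
  obtain ⟨N, S, s, hst, hfin, hpot⟩ := process hM (serves_three hK (dirA K m) (dirB K m))
    (Bad F) (State.init (fun i : Fin 3 => ![(⊤ : Submodule K (Pairs K m)), dirA K m, dirB K m] i)
      (fun f hf => affine_spec hf))
  have hpot' : pot (Bad F) S < 1 / 4 := by
    refine lt_of_le_of_lt hpot ?_
    simp only [pot, Finset.sum_const, Finset.card_univ, Fintype.card_fin, nsmul_eq_mul]
    push_cast
    have h1 : ((univ.filter (Bad F)).card : ℝ) / (Fintype.card (Pairs K m) : ℝ) < 1 / 12 := hbad
    linarith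
  have hi : ∀ i, (((S i).filter (Bad F)).card : ℝ) / ((S i).card : ℝ) < 1 / 4 := by
    intro i
    refine lt_of_le_of_lt ?_ hpot'
    exact Finset.single_le_sum (f := fun i => (((S i).filter (Bad F)).card : ℝ) / ((S i).card : ℝ))
      (fun j _ => by positivity) (Finset.mem_univ i)
  -- isotropy
  have hcl0 : ∀ x ∈ S 0, ∀ n ∈ N, x + n ∈ S 0 := fun x hx n hn =>
    hst.closed 0 x hx n hn Submodule.mem_top
  have hiso : ∀ u ∈ N, ∀ v ∈ N, u.1 * v.2 + v.1 * u.2 = 0 := by
    intro u hu v hv
    have hlt : 4 * ((S 0).filter (Bad F)).card < (S 0).card := by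
      have h1 := hi 0
      have h2 : (0 : ℝ) < ((S 0).card : ℝ) := by
        have h3 := fib_card (hst.fib 0)
        have h4 : 0 < s 0 * Fintype.card (Pairs K m) := Nat.mul_pos (hst.pos 0) Fintype.card_pos
        rw [← h3] at h4
        have h5 : 0 < (S 0).card := by
          rcases Nat.eq_zero_or_pos (S 0).card with h6 | h6
          · rw [h6] at h4; simp at h4
          · exact h6
        exact_mod_cast h5
      rw [div_lt_iff₀ h2] at h1
      have h3 : (4 : ℝ) * (((S 0).filter (Bad F)).card : ℝ) < ((S 0).card : ℝ) := by linarith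
      exact_mod_cast h3
    obtain ⟨x, hx, g1, g2, g3, g4⟩ := four_good hcl0 (Bad F) hlt hu hv
    simp only [Bad, not_not] at g1 g2 g3 g4
    have key : F (x + (u + v)) - F (x + u) - F (x + v) + F x = 0 := by
      ext i j
      obtain ⟨α, hα⟩ := hst.lin _ (hF i j)
      have e1 : F (x + u) i j = F x i j + α u := hα 0 x hx u hu Submodule.mem_top
      have e2 : F (x + v) i j = F x i j + α v := hα 0 x hx v hv Submodule.mem_top
      have e3 : F (x + (u + v)) i j = F x i j + α (u + v) :=
        hα 0 x hx (u + v) (N.add_mem hu hv) Submodule.mem_top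
      rw [Matrix.add_apply, Matrix.sub_apply, Matrix.sub_apply, Matrix.zero_apply]
      rw [e1, e2, e3, map_add]
      ring
    rw [g1, g2, g3, g4] at key
    rw [← key]
    simp only [Prod.fst_add, Prod.snd_add, Matrix.add_mul, Matrix.mul_add]
    abel
  have hA : ∀ u ∈ N, u.2 = 0 → u.1 = 0 := by
    intro u hu hu2
    have h1 := polar_eq_zero (hst.closed 1) (hst.fib 1) (hst.pos 1) hF
      (fun f hf => by
        obtain ⟨α, hα⟩ := hst.lin f hf
        exact ⟨α, hα 1⟩) hu (show u ∈ dirA K m from mem_dirA.2 hu2) (by rw [hu2, Matrix.mul_zero])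
      (fun d hd => by rw [hu2, mem_dirA.1 (show d ∈ dirA K m from hd), Matrix.mul_zero, Matrix.mul_zero, add_zero]) (hi 1)
    ext i j
    have h2 := LinearMap.congr_fun h1 (0, Matrix.single j i 1)
    rw [polar_apply, hu2, Matrix.mul_zero, add_zero, Matrix.one_mul, Matrix.trace_mul_comm,
      Matrix.trace_single_mul] at h2
    simpa using h2
  have hB : ∀ u ∈ N, u.1 = 0 → u.2 = 0 := by
    intro u hu hu2
    have h1 := polar_eq_zero (hst.closed 2) (hst.fib 2) (hst.pos 2) hF
      (fun f hf => by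
        obtain ⟨α, hα⟩ := hst.lin f hf
        exact ⟨α, hα 2⟩) hu (show u ∈ dirB K m from mem_dirB.2 hu2) (by rw [hu2, Matrix.zero_mul])
      (fun d hd => by rw [hu2, mem_dirB.1 (show d ∈ dirB K m from hd), Matrix.zero_mul, Matrix.zero_mul, add_zero]) (hi 2)
    ext i j
    have h2 := LinearMap.congr_fun h1 (Matrix.single j i 1, 0)
    rw [polar_apply, hu2, Matrix.zero_mul, zero_add, Matrix.one_mul,
      Matrix.trace_single_mul] at h2
    simpa using h2
  have h1 := iso_dim N hiso hA hB
  rw [finrank_top, finrank_pairs] at hfin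
  omega

/-- a good program exists -/
lemma exists_program {Ω : Type} [Fintype Ω] (w : Ω → ℝ) (hw : ∀ ω, 0 ≤ w ω)
    (hw1 : ∑ ω, w ω = 1) (F : Ω → Pairs K m → Matrix (Fin m) (Fin m) K) :
    ∃ ω, success w F ≤ 1 - ((univ.filter fun x : Pairs K m => Bad (F ω) x).card : ℝ) /
      (Fintype.card (Pairs K m) : ℝ) := by
  by_contra hc
  push Not at hc
  have hpos : (0 : ℝ) < (Fintype.card (Pairs K m) : ℝ) := by exact_mod_cast Fintype.card_pos
  have h1 : ∀ ω, ((Nat.card {x : Pairs K m // F ω x = x.1 * x.2} : ℝ) /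
      (Nat.card (Pairs K m) : ℝ)) = 1 - ((univ.filter fun x : Pairs K m => Bad (F ω) x).card : ℝ) /
      (Fintype.card (Pairs K m) : ℝ) := by
    intro ω
    have h2 : Nat.card {x : Pairs K m // F ω x = x.1 * x.2} =
        (univ.filter fun x : Pairs K m => F ω x = x.1 * x.2).card := by
      rw [Nat.card_eq_fintype_card, Fintype.card_subtype]
    have h3 : (univ.filter fun x : Pairs K m => F ω x = x.1 * x.2).card +
        (univ.filter fun x : Pairs K m => Bad (F ω) x).card = Fintype.card (Pairs K m) := by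
      rw [← Finset.card_univ, ← Finset.card_filter_add_card_filter_not
        (s := (univ : Finset (Pairs K m))) (p := fun x => F ω x = x.1 * x.2)]
      congr 1
      apply congrArg Finset.card
      ext x
      simp [Bad]
    have h4 : ((univ.filter fun x : Pairs K m => F ω x = x.1 * x.2).card : ℝ) +
        ((univ.filter fun x : Pairs K m => Bad (F ω) x).card : ℝ) =
        (Fintype.card (Pairs K m) : ℝ) := by exact_mod_cast h3
    rw [h2, Nat.card_eq_fintype_card, eq_sub_iff_add_eq, ← add_div, h4, div_self hpos.ne']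
  have h2 : success w F = ∑ ω, w ω *
      (1 - ((univ.filter fun x : Pairs K m => Bad (F ω) x).card : ℝ) /
      (Fintype.card (Pairs K m) : ℝ)) := by
    rw [success]
    exact Finset.sum_congr rfl fun ω _ => by rw [h1]
  obtain ⟨ω0, hω0⟩ : ∃ ω, 0 < w ω := by
    by_contra h0
    push Not at h0
    have : ∑ ω, w ω = 0 := Finset.sum_eq_zero fun ω _ => le_antisymm (h0 ω) (hw ω)
    rw [this] at hw1
    exact zero_ne_one hw1
  have h3 : success w F < ∑ ω, w ω * success w F := by
    conv_lhs => rw [h2]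
    refine Finset.sum_lt_sum (fun ω _ => mul_le_mul_of_nonneg_left (hc ω).le (hw ω))
      ⟨ω0, mem_univ _, mul_lt_mul_of_pos_left (hc ω0) hω0⟩
  rw [← Finset.sum_mul, hw1, one_mul] at h3
  exact lt_irrefl _ h3

end Pool.Agent.H703.FF
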