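import Pool.Agent.H703.FF.Defs

/-!
# Views of a straight-line program: sets on which all computed functions are affine in some directions
-/

namespace Pool.Agent.H703.FF

open Finset Module
open scoped Classical

variable {K V : Type} [Field K] [Fintype K] [AddCommGroup V] [Module K V] [Fintype V]
  {ι : Type} [Fintype ι]

/-- All translates of `D` meet `S` in `s` points. -/
def Fib (D : Submodule K V) (S : Finset V) (s : ℕ) : Prop :=
  ∀ x, (univ.filter fun d : D => x + (d : V) ∈ S).card = s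

/-- All functions of `M` are affine in the directions `N ⊓ D i` on `S i`, with linear parts which do
not depend on the point and on `i`; all translates of `D i` meet `S i` in `s i` points. -/
structure State (D : ι → Submodule K V) (M : Submodule K (V → K)) (N : Submodule K V)
    (S : ι → Finset V) (s : ι → ℕ) : Prop where
  closed : ∀ i, ∀ x ∈ S i, ∀ n ∈ N, n ∈ D i → x + n ∈ S i
  lin : ∀ f ∈ M, ∃ α : V →ₗ[K] K, ∀ i, ∀ x ∈ S i, ∀ n ∈ N, n ∈ D i → f (x + n) = f x + α n
  fib : ∀ i, Fib (D i) (S i) (s i)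
  pos : ∀ i, 0 < s i

/-- The sum of the proportions of the bad points. -/
noncomputable def pot (bad : V → Prop) (S : ι → Finset V) : ℝ :=
  ∑ i, (((S i).filter bad).card : ℝ) / ((S i).card : ℝ)

omit [Fintype K] in
/-- double counting -/
lemma double (D : Submodule K V) (P : V → Prop) :
    ∑ x : V, (univ.filter fun d : D => P (x + (d : V))).card =
      Fintype.card D * (univ.filter P).card := by
  classical
  have h1 : ∀ x : V, (univ.filter fun d : D => P (x + (d : V))).card =
      ∑ d : D, if P (x + (d : V)) then 1 else 0 := by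
    intro x
    rw [Finset.card_filter]
  simp_rw [h1]
  rw [Finset.sum_comm]
  have h2 : ∀ d : D, ∑ x : V, (if P (x + (d : V)) then 1 else 0) = (univ.filter P).card := by
    intro d
    rw [Finset.card_filter]
    exact Equiv.sum_comp (Equiv.addRight (d : V)) (fun x => if P x then 1 else 0)
  rw [Finset.sum_congr rfl (fun d _ => h2 d)]
  simp [Finset.card_univ]

omit [Fintype K] in
lemma fib_card {D : Submodule K V} {S : Finset V} {s : ℕ} (h : Fib D S s) :
    Fintype.card D * S.card = s * Fintype.card V := by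
  have h1 := double D (fun x => x ∈ S)
  have h3 : (univ.filter (fun x => x ∈ S)).card = S.card := by
    congr 1
    ext
    simp
  have h4 : ∑ x : V, (univ.filter fun d : D => x + (d : V) ∈ S).card =
      Fintype.card D * S.card := by
    rw [← h3]
    convert h1
  rw [← h4, Finset.sum_congr rfl (fun x _ => h x)]
  simp [mul_comm]

/-- splitting a fibre by the values of a function -/
lemma fib_step {D N : Submodule K V} {S : Finset V} {s : ℕ}
    (hcl : ∀ x ∈ S, ∀ n ∈ N, n ∈ D → x + n ∈ S)
    (h : Fib D S s) {c : V → K} {γ : V →ₗ[K] K}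
    (hc : ∀ x ∈ S, ∀ n ∈ N, n ∈ D → c (x + n) = c x + γ n)
    (hγ : ∃ n ∈ N, n ∈ D ∧ γ n ≠ 0) :
    ∃ s', Fintype.card K * s' = s ∧ ∀ v : K, Fib D (S.filter (fun y => c y = v)) s' := by
  classical
  obtain ⟨n, hnN, hnD, hn⟩ := hγ
  -- all values are taken equally often on every fibre
  have key : ∀ (x : V) (v w : K),
      (univ.filter fun d : D => x + (d : V) ∈ S.filter (fun y => c y = v)).card ≤
      (univ.filter fun d : D => x + (d : V) ∈ S.filter (fun y => c y = w)).card := by
    intro x v w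
    set m : V := ((w - v) * (γ n)⁻¹) • n with hm
    have hmN : m ∈ N := N.smul_mem _ hnN
    have hmD : m ∈ D := D.smul_mem _ hnD
    have hγm : γ m = w - v := by
      rw [hm, map_smul, smul_eq_mul, mul_assoc, inv_mul_cancel₀ hn, mul_one]
    refine Finset.card_le_card_of_injOn (fun d => d + ⟨m, hmD⟩) ?_ ?_
    · intro d hd
      simp only [coe_filter, mem_univ, true_and, Set.mem_ofPred_eq, mem_filter] at hd ⊢
      have e : x + ((d + ⟨m, hmD⟩ : D) : V) = (x + (d : V)) + m := by
        simp [add_assoc]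
      rw [e]
      refine ⟨hcl _ hd.1 _ hmN hmD, ?_⟩
      rw [hc _ hd.1 _ hmN hmD, hd.2, hγm]
      ring
    · intro d _ d' _ hdd
      exact add_right_cancel hdd
  have keq : ∀ (x : V) (v w : K),
      (univ.filter fun d : D => x + (d : V) ∈ S.filter (fun y => c y = v)).card =
      (univ.filter fun d : D => x + (d : V) ∈ S.filter (fun y => c y = w)).card :=
    fun x v w => le_antisymm (key x v w) (key x w v)
  have hsum : ∀ x : V, Fintype.card K *
      (univ.filter fun d : D => x + (d : V) ∈ S.filter (fun y => c y = 0)).card = s := by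
    intro x
    rw [← h x]
    have : (univ.filter fun d : D => x + (d : V) ∈ S).card =
        ∑ v : K, (univ.filter fun d : D => x + (d : V) ∈ S.filter (fun y => c y = v)).card := by
      rw [Finset.card_eq_sum_card_fiberwise (f := fun d : D => c (x + (d : V))) (t := univ)
        (fun _ _ => by simp)]
      refine Finset.sum_congr rfl fun v _ => ?_
      congr 1
      ext d
      simp
    rw [this, Finset.sum_congr rfl (fun v _ => keq x v 0)]
    simp
  refine ⟨(univ.filter fun d : D => (0 : V) + (d : V) ∈ S.filter (fun y => c y = 0)).card,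
    hsum 0, fun v x => ?_⟩
  rw [keq x v 0]
  have hq : 0 < Fintype.card K := Fintype.card_pos
  exact Nat.eq_of_mul_eq_mul_left hq (by rw [hsum x, hsum 0])

/-- On the level sets of `u a + v b` the product `a b` is an affine combination of `a` and `b`. -/
def Allowed (K : Type) [Field K] (u v : K) : Prop :=
  ∀ w : K, ∃ p q r : K, ∀ a b : K, u * a + v * b = w → a * b = p * a + q * b + r

omit [Fintype K] in
lemma allowed_left : Allowed K 1 0 := fun w => ⟨0, w, 0, fun a b h => by
  rw [← h]; ring⟩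

omit [Fintype K] in
lemma allowed_right : Allowed K 0 1 := fun w => ⟨w, 0, 0, fun a b h => by
  rw [← h]; ring⟩

lemma allowed_both (hK : Fintype.card K = 2) : Allowed K 1 1 := fun w => by
  refine ⟨w - 1, 0, 0, fun a b h => ?_⟩
  have ha : a * a = a := by
    have := FiniteField.pow_card a
    rw [hK] at this
    rw [← sq]
    exact this
  have hb : b = w - a := by rw [← h]; ring
  rw [hb]
  linear_combination (-1 : K) * ha

/-- There is always a combination of two functions which can be fixed. -/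
def Choice (D : ι → Submodule K V) : Prop :=
  ∀ (N : Submodule K V) (α β : V →ₗ[K] K), ∃ u v : K, Allowed K u v ∧
    ∀ i, (∀ n ∈ N, n ∈ D i → α n = 0 ∧ β n = 0) ∨ ∃ n ∈ N, n ∈ D i ∧ (u • α + v • β) n ≠ 0

/-- After fixing the value of `u a + v b` in the views in which it is not constant along the
directions the function `g` is affine in the remaining directions. -/
def Fixes (D : ι → Submodule K V) (N : Submodule K V) (S : ι → Finset V) (a b g : V → K)
    (α β : V →ₗ[K] K) (u v : K) : Prop :=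
  ∀ w : K, ∃ δ : V →ₗ[K] K, ∀ i,
    ((∃ n ∈ N, n ∈ D i ∧ (u • α + v • β) n ≠ 0) → ∀ x ∈ S i, u * a x + v * b x = w →
      ∀ n ∈ N, n ∈ D i → (u • α + v • β) n = 0 → g (x + n) = g x + δ n) ∧
    ((¬ ∃ n ∈ N, n ∈ D i ∧ (u • α + v • β) n ≠ 0) → ∀ x ∈ S i,
      ∀ n ∈ N, n ∈ D i → g (x + n) = g x + δ n)

omit [Fintype K] in
lemma finrank_inf_ker (N : Submodule K V) (γ : V →ₗ[K] K) :
    finrank K N ≤ finrank K (N ⊓ LinearMap.ker γ : Submodule K V) + 1 := by
  have h := (γ.domRestrict N).finrank_range_add_finrank_ker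
  have h1 : finrank K (LinearMap.range (γ.domRestrict N)) ≤ 1 := by
    simpa using Submodule.finrank_le (LinearMap.range (γ.domRestrict N))
  have h2 : finrank K (LinearMap.ker (γ.domRestrict N)) =
      finrank K (N ⊓ LinearMap.ker γ : Submodule K V) := by
    have e : (LinearMap.ker (γ.domRestrict N)).map N.subtype = N ⊓ LinearMap.ker γ := by
      ext x
      simp only [Submodule.mem_map, LinearMap.mem_ker, Submodule.subtype_apply, Submodule.mem_inf]
      constructor
      · rintro ⟨y, hy, rfl⟩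
        exact ⟨y.2, hy⟩
      · rintro ⟨hx, hx2⟩
        exact ⟨⟨x, hx⟩, hx2, rfl⟩
    rw [← e]
    exact (Submodule.finrank_map_subtype_eq N _).symm
  omega

theorem step {D : ι → Submodule K V} {M : Submodule K (V → K)} {N : Submodule K V}
    {S : ι → Finset V} {s : ι → ℕ} (h : State D M N S s) {a b g : V → K}
    {α β : V →ₗ[K] K}
    (hα : ∀ i, ∀ x ∈ S i, ∀ n ∈ N, n ∈ D i → a (x + n) = a x + α n)
    (hβ : ∀ i, ∀ x ∈ S i, ∀ n ∈ N, n ∈ D i → b (x + n) = b x + β n)
    {u v : K} (hfix : Fixes D N S a b g α β u v) (bad : V → Prop) :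
    ∃ (N' : Submodule K V) (S' : ι → Finset V) (s' : ι → ℕ),
      State D (M ⊔ Submodule.span K {g}) N' S' s' ∧ finrank K N ≤ finrank K N' + 1 ∧
      pot bad S' ≤ pot bad S ∧ N' ≤ N ∧ (∀ i, S' i ⊆ S i) ∧
      ∃ w : K, ∀ i, (∃ n ∈ N, n ∈ D i ∧ (u • α + v • β) n ≠ 0) →
        ∀ x ∈ S' i, u * a x + v * b x = w := by
  set c : V → K := fun x => u * a x + v * b x with hcdef
  set γ : V →ₗ[K] K := u • α + v • β with hγdef
  have hγ : ∀ n, γ n = u * α n + v * β n := fun n => by simp [hγdef]
  have hc : ∀ i, ∀ x ∈ S i, ∀ n ∈ N, n ∈ D i → c (x + n) = c x + γ n := by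
    intro i x hx n hn hnD
    simp only [hcdef, hγ]
    rw [hα i x hx n hn hnD, hβ i x hx n hn hnD]
    ring
  have hV : 0 < Fintype.card V := Fintype.card_pos
  have hDp : ∀ i, 0 < Fintype.card (D i) := fun i => Fintype.card_pos
  have hq : 0 < Fintype.card K := Fintype.card_pos
  let req : ι → Prop := fun i => ∃ n ∈ N, n ∈ D i ∧ γ n ≠ 0
  have hs' : ∀ i, ∃ s', req i → (Fintype.card K * s' = s i ∧ ∀ w : K,
      Fib (D i) ((S i).filter (fun y => c y = w)) s') := by
    intro i
    by_cases hr : req i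
    · obtain ⟨s', h1, h2⟩ := fib_step (h.closed i) (h.fib i) (hc i) hr
      exact ⟨s', fun _ => ⟨h1, h2⟩⟩
    · exact ⟨0, fun h' => absurd h' hr⟩
  choose s1 hs1 using hs'
  let S' : K → ι → Finset V := fun w i => if req i then (S i).filter (fun y => c y = w) else S i
  let s' : ι → ℕ := fun i => if req i then s1 i else s i
  -- the numbers of points
  have hcard : ∀ i, Fintype.card (D i) * (S i).card = s i * Fintype.card V :=
    fun i => fib_card (h.fib i)
  have hSpos : ∀ i, 0 < (S i).card := by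
    intro i
    have h1 := hcard i
    have h2 : 0 < s i * Fintype.card V := Nat.mul_pos (h.pos i) hV
    rw [← h1] at h2
    exact Nat.pos_of_mul_pos_left h2 |> fun _ => by
      rcases Nat.eq_zero_or_pos (S i).card with h3 | h3
      · rw [h3] at h2; simp at h2
      · exact h3
  have hq' : ∀ i, req i → ∀ w, (S i).card = Fintype.card K * ((S i).filter (fun y => c y = w)).card := by
    intro i hr w
    obtain ⟨h1, h2⟩ := hs1 i hr
    have h3 := fib_card (h2 w)
    have h4 := hcard i
    rw [← h1, mul_assoc, ← h3] at h4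
    have : Fintype.card (D i) * (S i).card =
        Fintype.card (D i) * (Fintype.card K * ((S i).filter (fun y => c y = w)).card) := by
      rw [h4]; ring
    exact Nat.eq_of_mul_eq_mul_left (hDp i) this
  -- the average of the potential
  have havg : ∑ w : K, pot bad (S' w) = ∑ w : K, pot bad S := by
    simp only [pot]
    rw [Finset.sum_comm, Finset.sum_comm (s := (univ : Finset K))]
    refine Finset.sum_congr rfl fun i _ => ?_
    by_cases hr : req i
    · have hSr : ((S i).card : ℝ) ≠ 0 := by exact_mod_cast (hSpos i).ne'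
      have hqr : (Fintype.card K : ℝ) ≠ 0 := by exact_mod_cast hq.ne'
      have h1 : ∀ w : K, ((((S' w i).filter bad).card : ℝ) / ((S' w i).card : ℝ)) =
          ((Fintype.card K : ℝ) / ((S i).card : ℝ)) *
            ((((S i).filter bad).filter (fun y => c y = w)).card : ℝ) := by
        intro w
        have e1 : S' w i = (S i).filter (fun y => c y = w) := by simp [S', hr]
        have e2 : ((S i).card : ℝ) = (Fintype.card K : ℝ) * (((S i).filter (fun y => c y = w)).card : ℝ) := by
          exact_mod_cast hq' i hr w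
        have e3 : (((S i).filter (fun y => c y = w)).card : ℝ) ≠ 0 := by
          intro h0
          rw [h0, mul_zero] at e2
          exact hSr e2
        have e4 : ((S i).filter (fun y => c y = w)).filter bad =
            ((S i).filter bad).filter (fun y => c y = w) := Finset.filter_comm _ _ _
        rw [e1, e2, e4, div_mul_eq_mul_div, mul_div_mul_left _ _ hqr]
      rw [Finset.sum_congr rfl fun w _ => h1 w, ← Finset.mul_sum]
      have h2 : ∑ w : K, ((((S i).filter bad).filter (fun y => c y = w)).card : ℝ) =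
          (((S i).filter bad).card : ℝ) := by
        rw [Finset.card_eq_sum_card_fiberwise (f := c) (t := univ) (fun _ _ => by simp)]
        push_cast
        rfl
      rw [h2]
      simp only [sum_const, card_univ, nsmul_eq_mul]
      ring
    · have h1 : ∀ w : K, S' w i = S i := fun w => by simp [S', hr]
      simp only [h1]
  obtain ⟨w, -, hw⟩ := Finset.exists_le_of_sum_le (s := (univ : Finset K)) univ_nonempty havg.le
  refine ⟨N ⊓ LinearMap.ker γ, S' w, s', ?_, finrank_inf_ker N γ, hw, inf_le_left, ?_, w, ?_⟩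
  rotate_left
  · intro i x hx
    by_cases hr : req i
    · simp only [S', hr, if_true, mem_filter] at hx
      exact hx.1
    · simpa only [S', hr, if_false] using hx
  · intro i hr x hx
    have hr' : req i := hr
    simp only [S', hr', if_true, mem_filter] at hx
    exact hx.2
  obtain ⟨δ', hδ'⟩ := hfix w
  have hmem : ∀ i, req i → ∀ x, x ∈ S' w i ↔ x ∈ S i ∧ c x = w := fun i hr x => by
    simp [S', hr]
  have hmem' : ∀ i, ¬ req i → S' w i = S i := fun i hr => by simp [S', hr]
  have hsub : ∀ i, ∀ x ∈ S' w i, x ∈ S i := by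
    intro i x hx
    by_cases hr : req i
    · exact ((hmem i hr x).1 hx).1
    · rwa [hmem' i hr] at hx
  have hclosed : ∀ i, ∀ x ∈ S' w i, ∀ n ∈ N ⊓ LinearMap.ker γ, n ∈ D i → x + n ∈ S' w i := by
    intro i x hx n hn hnD
    obtain ⟨hn1, hn2⟩ := Submodule.mem_inf.1 hn
    have hx' := hsub i x hx
    by_cases hr : req i
    · rw [hmem i hr] at hx ⊢
      refine ⟨h.closed i x hx.1 n hn1 hnD, ?_⟩
      rw [hc i x hx.1 n hn1 hnD, hx.2, LinearMap.mem_ker.1 hn2, add_zero]
    · rw [hmem' i hr] at hx ⊢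
      exact h.closed i x hx n hn1 hnD
  refine ⟨hclosed, ?_, ?_, ?_⟩
  · intro f hf
    obtain ⟨e, he, y, hy, rfl⟩ := Submodule.mem_sup.1 hf
    obtain ⟨μ, rfl⟩ := Submodule.mem_span_singleton.1 hy
    obtain ⟨δ, hδ⟩ := h.lin e he
    refine ⟨δ + μ • δ', ?_⟩
    intro i x hx n hn hnD
    obtain ⟨hn1, hn2⟩ := Submodule.mem_inf.1 hn
    have hx' := hsub i x hx
    have e1 := hδ i x hx' n hn1 hnD
    have key : g (x + n) = g x + δ' n := by
      by_cases hr : req i
      · have hx1 := (hmem i hr x).1 hx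
        exact (hδ' i).1 hr x hx' hx1.2 n hn1 hnD (LinearMap.mem_ker.1 hn2)
      · exact (hδ' i).2 hr x hx' n hn1 hnD
    simp only [Pi.add_apply, Pi.smul_apply, smul_eq_mul, LinearMap.add_apply,
      LinearMap.smul_apply]
    rw [e1, key]
    ring
  · intro i
    by_cases hr : req i
    · have h1 := (hs1 i hr).2 w
      simp only [s', hr, if_true, S']
      exact h1
    · have h1 := h.fib i
      simp only [s', hr, if_false, S']
      exact h1
  · intro i
    by_cases hr : req i
    · have h1 := (hs1 i hr).1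
      have h2 := h.pos i
      simp only [s', hr, if_true]
      rw [← h1] at h2
      exact Nat.pos_of_mul_pos_left h2 |> fun _ => by
        rcases Nat.eq_zero_or_pos (s1 i) with h3 | h3
        · rw [h3] at h2; simp at h2
        · exact h3
    · simp only [s', hr, if_false]
      exact h.pos i

/-- Every step can be made affine. -/
def Serves (D : ι → Submodule K V) : Prop :=
  ∀ (N : Submodule K V) (S : ι → Finset V) (a b : V → K) (φ ψ : K → K) (α β : V →ₗ[K] K),
    (∀ i, ∀ x ∈ S i, ∀ n ∈ N, n ∈ D i → x + n ∈ S i) →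
    (∀ i, ∀ x ∈ S i, ∀ n ∈ N, n ∈ D i → a (x + n) = a x + α n) →
    (∀ i, ∀ x ∈ S i, ∀ n ∈ N, n ∈ D i → b (x + n) = b x + β n) →
    ∃ u v : K, Fixes D N S a b (fun x => a x * φ (b x) + ψ (b x)) α β u v

theorem process {D : ι → Submodule K V} {L M : Submodule K (V → K)} {t : ℕ}
    (hM : Steps 1 L t M) (hD : Serves D) (bad : V → Prop)
    {N : Submodule K V} {S : ι → Finset V} {s : ι → ℕ} (h : State D L N S s) :
    ∃ (N' : Submodule K V) (S' : ι → Finset V) (s' : ι → ℕ),
      State D M N' S' s' ∧ finrank K N ≤ finrank K N' + t ∧ pot bad S' ≤ pot bad S := by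
  induction hM with
  | start => exact ⟨N, S, s, h, le_rfl, le_rfl⟩
  | step a b φ ψ _ ha hb ih =>
    obtain ⟨N1, S1, s1, h1, h2, h3⟩ := ih
    obtain ⟨α, hα⟩ := h1.lin a ha
    obtain ⟨β, hβ⟩ := h1.lin (b 0) (hb 0)
    obtain ⟨u, v, huv⟩ := hD N1 S1 a (b 0) (fun y => φ fun _ => y) (fun y => ψ fun _ => y) α β
      h1.closed hα hβ
    obtain ⟨N2, S2, s2, g1, g2, g3, -⟩ := step h1 hα hβ huv bad
    refine ⟨N2, S2, s2, ?_, by omega, g3.trans h3⟩
    have e : ∀ x, (fun i => b i x) = fun _ : Fin 1 => b 0 x := by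
      intro x
      ext i
      rw [Subsingleton.elim i 0]
    simp only [e]
    exact g1

omit [Fintype K] [Fintype ι] in
/-- at the beginning -/
lemma State.init (D : ι → Submodule K V) {L : Submodule K (V → K)}
    (hL : ∀ f ∈ L, ∃ α : V →ₗ[K] K, ∀ x n, f (x + n) = f x + α n) :
    State D L ⊤ (fun _ => univ) (fun i => Fintype.card (D i)) where
  closed := fun _ _ _ _ _ _ => mem_univ _
  lin := fun f hf => by
    obtain ⟨α, hα⟩ := hL f hf
    exact ⟨α, fun _ x _ n _ _ => hα x n⟩
  fib := fun i x => by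
    simp [Finset.card_univ]
  pos := fun i => Fintype.card_pos

/-- Over the field with two elements one can serve two subspaces and the whole space. -/
lemma choice_three (hK : Fintype.card K = 2) (D₁ D₂ : Submodule K V) :
    Choice (K := K) (fun i : Fin 3 => ![(⊤ : Submodule K V), D₁, D₂] i) := by
  intro N α β
  have hall : ∀ c : K, c ≠ 0 → c = 1 := by
    intro c hc
    have := FiniteField.pow_card_sub_one_eq_one c hc
    rw [hK] at this
    simpa using this
  have hone : (1 : K) + 1 = 0 := by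
    by_contra h
    have := hall _ h
    have h2 : (1 : K) = 0 := by linear_combination this
    exact one_ne_zero h2
  -- two of three combinations do not vanish
  have two : ∀ E : Submodule K V, (∃ n ∈ N, n ∈ E ∧ (α n ≠ 0 ∨ β n ≠ 0)) →
      ((∃ n ∈ N, n ∈ E ∧ ((1 : K) • α + (0 : K) • β) n ≠ 0) ∧
        (∃ n ∈ N, n ∈ E ∧ ((0 : K) • α + (1 : K) • β) n ≠ 0)) ∨
      ((∃ n ∈ N, n ∈ E ∧ ((1 : K) • α + (0 : K) • β) n ≠ 0) ∧
        (∃ n ∈ N, n ∈ E ∧ ((1 : K) • α + (1 : K) • β) n ≠ 0)) ∨
      ((∃ n ∈ N, n ∈ E ∧ ((0 : K) • α + (1 : K) • β) n ≠ 0) ∧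
        (∃ n ∈ N, n ∈ E ∧ ((1 : K) • α + (1 : K) • β) n ≠ 0)) := by
    rintro E ⟨n, hn, hnE, h⟩
    by_cases h1 : α n = 0
    · have h2 : β n ≠ 0 := by tauto
      refine Or.inr (Or.inr ⟨⟨n, hn, hnE, ?_⟩, ⟨n, hn, hnE, ?_⟩⟩)
      · simpa using h2
      · simpa [h1] using h2
    · by_cases h2 : β n = 0
      · refine Or.inr (Or.inl ⟨⟨n, hn, hnE, ?_⟩, ⟨n, hn, hnE, ?_⟩⟩)
        · simpa using h1
        · simpa [h2] using h1
      · refine Or.inl ⟨⟨n, hn, hnE, ?_⟩, ⟨n, hn, hnE, ?_⟩⟩
        · simpa using h1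
        · simpa using h2
  have req : ∀ E : Submodule K V, (∀ n ∈ N, n ∈ E → α n = 0 ∧ β n = 0) ∨
      (∃ n ∈ N, n ∈ E ∧ (α n ≠ 0 ∨ β n ≠ 0)) := by
    intro E
    by_cases h : ∃ n ∈ N, n ∈ E ∧ (α n ≠ 0 ∨ β n ≠ 0)
    · exact Or.inr h
    · left
      push Not at h
      exact h
  have fin : ∀ u v : K, Allowed K u v →
      ((∀ n ∈ N, n ∈ (⊤ : Submodule K V) → α n = 0 ∧ β n = 0) ∨
        ∃ n ∈ N, n ∈ (⊤ : Submodule K V) ∧ (u • α + v • β) n ≠ 0) →
      ((∀ n ∈ N, n ∈ D₁ → α n = 0 ∧ β n = 0) ∨ ∃ n ∈ N, n ∈ D₁ ∧ (u • α + v • β) n ≠ 0) →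
      ((∀ n ∈ N, n ∈ D₂ → α n = 0 ∧ β n = 0) ∨ ∃ n ∈ N, n ∈ D₂ ∧ (u • α + v • β) n ≠ 0) →
      ∃ u v : K, Allowed K u v ∧ ∀ i : Fin 3,
        (∀ n ∈ N, n ∈ ![(⊤ : Submodule K V), D₁, D₂] i → α n = 0 ∧ β n = 0) ∨
        ∃ n ∈ N, n ∈ ![(⊤ : Submodule K V), D₁, D₂] i ∧ (u • α + v • β) n ≠ 0 := by
    intro u v huv h0 h1 h2
    refine ⟨u, v, huv, fun i => ?_⟩
    fin_cases i
    · exact h0
    · exact h1
    · exact h2
  have up : ∀ (E : Submodule K V) (u v : K), (∃ n ∈ N, n ∈ E ∧ (u • α + v • β) n ≠ 0) →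
      ∃ n ∈ N, n ∈ (⊤ : Submodule K V) ∧ (u • α + v • β) n ≠ 0 := by
    rintro E u v ⟨n, hn, -, h⟩
    exact ⟨n, hn, Submodule.mem_top, h⟩
  rcases req D₁ with h1 | h1
  · rcases req D₂ with h2 | h2
    · rcases req ⊤ with h0 | h0
      · exact fin 1 0 allowed_left (Or.inl h0) (Or.inl h1) (Or.inl h2)
      · rcases two ⊤ h0 with h | h | h
        · exact fin 1 0 allowed_left (Or.inr h.1) (Or.inl h1) (Or.inl h2)
        · exact fin 1 0 allowed_left (Or.inr h.1) (Or.inl h1) (Or.inl h2)
        · exact fin 0 1 allowed_right (Or.inr h.1) (Or.inl h1) (Or.inl h2)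
    · rcases two D₂ h2 with h | h | h
      · exact fin 1 0 allowed_left (Or.inr (up _ _ _ h.1)) (Or.inl h1) (Or.inr h.1)
      · exact fin 1 0 allowed_left (Or.inr (up _ _ _ h.1)) (Or.inl h1) (Or.inr h.1)
      · exact fin 0 1 allowed_right (Or.inr (up _ _ _ h.1)) (Or.inl h1) (Or.inr h.1)
  · rcases req D₂ with h2 | h2
    · rcases two D₁ h1 with h | h | h
      · exact fin 1 0 allowed_left (Or.inr (up _ _ _ h.1)) (Or.inr h.1) (Or.inl h2)
      · exact fin 1 0 allowed_left (Or.inr (up _ _ _ h.1)) (Or.inr h.1) (Or.inl h2)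
      · exact fin 0 1 allowed_right (Or.inr (up _ _ _ h.1)) (Or.inr h.1) (Or.inl h2)
    · have hb := allowed_both (K := K) hK
      rcases two D₁ h1 with h | h | h <;> rcases two D₂ h2 with g | g | g
      · exact fin 1 0 allowed_left (Or.inr (up _ _ _ h.1)) (Or.inr h.1) (Or.inr g.1)
      · exact fin 1 0 allowed_left (Or.inr (up _ _ _ h.1)) (Or.inr h.1) (Or.inr g.1)
      · exact fin 0 1 allowed_right (Or.inr (up _ _ _ h.2)) (Or.inr h.2) (Or.inr g.1)
      · exact fin 1 0 allowed_left (Or.inr (up _ _ _ h.1)) (Or.inr h.1) (Or.inr g.1)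
      · exact fin 1 0 allowed_left (Or.inr (up _ _ _ h.1)) (Or.inr h.1) (Or.inr g.1)
      · exact fin 1 1 hb (Or.inr (up _ _ _ h.2)) (Or.inr h.2) (Or.inr g.2)
      · exact fin 0 1 allowed_right (Or.inr (up _ _ _ h.1)) (Or.inr h.1) (Or.inr g.2)
      · exact fin 1 1 hb (Or.inr (up _ _ _ h.2)) (Or.inr h.2) (Or.inr g.2)
      · exact fin 0 1 allowed_right (Or.inr (up _ _ _ h.1)) (Or.inr h.1) (Or.inr g.1)

/-- Over the field with two elements one can serve two subspaces and the whole space. -/
lemma serves_three (hK : Fintype.card K = 2) (D₁ D₂ : Submodule K V) :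
    Serves (K := K) (fun i : Fin 3 => ![(⊤ : Submodule K V), D₁, D₂] i) := by
  intro N S a b φ ψ α β hcl hα hβ
  obtain ⟨u, v, huv, hi⟩ := choice_three hK D₁ D₂ N α β
  -- functions on the field with two elements are affine
  have hall : ∀ c : K, c = 0 ∨ c = 1 := by
    intro c
    by_cases hc : c = 0
    · exact Or.inl hc
    · right
      have := FiniteField.pow_card_sub_one_eq_one c hc
      rw [hK] at this
      simpa using this
  have haff : ∀ (f : K → K) (y : K), f y = f 0 + (f 1 - f 0) * y := by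
    intro f y
    rcases hall y with rfl | rfl <;> ring
  refine ⟨u, v, fun w => ?_⟩
  obtain ⟨p, q, r, hpqr⟩ := huv w
  refine ⟨φ 0 • α + (φ 1 - φ 0) • (p • α + q • β) + (ψ 1 - ψ 0) • β, fun i => ⟨?_, ?_⟩⟩
  · intro _ x hx hw n hn hnD h0
    have e1 := hα i x hx n hn hnD
    have e2 := hβ i x hx n hn hnD
    have hγ : u * α n + v * β n = 0 := by simpa using h0
    have hw' : u * a (x + n) + v * b (x + n) = w := by
      rw [e1, e2, ← hw]
      linear_combination hγ
    have k1 := hpqr _ _ hw
    have k2 := hpqr _ _ hw'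
    simp only [haff φ (b x), haff φ (b (x + n)), haff ψ (b x), haff ψ (b (x + n)),
      LinearMap.add_apply, LinearMap.smul_apply, smul_eq_mul]
    rw [e1, e2] at k2
    rw [e1, e2]
    linear_combination (φ 1 - φ 0) * k2 - (φ 1 - φ 0) * k1
  · intro hno x hx n hn hnD
    have e1 := hα i x hx n hn hnD
    have e2 := hβ i x hx n hn hnD
    obtain ⟨h1, h2⟩ := (hi i).resolve_right hno n hn hnD
    simp only [e1, e2, h1, h2, add_zero, LinearMap.add_apply, LinearMap.smul_apply, smul_eq_mul,
      mul_zero]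

end Pool.Agent.H703.FF
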